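import Mathlib

/-!
Real cusps of plane polynomials: jets, the squaring substitution, and doubling.
-/

set_option autoImplicit false

namespace Pool.Agent.H561Z.Cusp

open MvPolynomial

/-- The real point `p` is an ordinary cusp of the curve `f = 0`. -/
def IsCusp (f : MvPolynomial (Fin 2) ℝ) (p : Fin 2 → ℝ) : Prop :=
  MvPolynomial.eval p f = 0 ∧
  (∀ i : Fin 2, MvPolynomial.eval p (MvPolynomial.pderiv i f) = 0) ∧
  (∃ i j : Fin 2,
    MvPolynomial.eval p (MvPolynomial.pderiv i (MvPolynomial.pderiv j f)) ≠ 0) ∧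
  (∃ v : Fin 2 → ℝ, v ≠ 0 ∧
    (∀ i : Fin 2, ∑ j : Fin 2,
      MvPolynomial.eval p (MvPolynomial.pderiv i (MvPolynomial.pderiv j f)) * v j = 0) ∧
    (∑ i : Fin 2, ∑ j : Fin 2, ∑ k : Fin 2,
      v i * v j * v k *
        MvPolynomial.eval p (MvPolynomial.pderiv i
          (MvPolynomial.pderiv j (MvPolynomial.pderiv k f)))) ≠ 0)

theorem pd_comm (f : MvPolynomial (Fin 2) ℝ) :
    pderiv 1 (pderiv 0 f) = pderiv 0 (pderiv 1 f) := by
  ext m
  simp only [coeff_pderiv]
  rw [add_right_comm m]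
  simp
  ring

theorem isCusp_iff (f : MvPolynomial (Fin 2) ℝ) (p : Fin 2 → ℝ) :
    IsCusp f p ↔ eval p f = 0 ∧ eval p (pderiv 0 f) = 0 ∧ eval p (pderiv 1 f) = 0 ∧
      (eval p (pderiv 0 (pderiv 0 f)) ≠ 0 ∨ eval p (pderiv 0 (pderiv 1 f)) ≠ 0 ∨
        eval p (pderiv 1 (pderiv 1 f)) ≠ 0) ∧
      ∃ a b : ℝ,
        eval p (pderiv 0 (pderiv 0 f)) * a + eval p (pderiv 0 (pderiv 1 f)) * b = 0 ∧
        eval p (pderiv 0 (pderiv 1 f)) * a + eval p (pderiv 1 (pderiv 1 f)) * b = 0 ∧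
        a ^ 3 * eval p (pderiv 0 (pderiv 0 (pderiv 0 f))) +
          3 * a ^ 2 * b * eval p (pderiv 0 (pderiv 0 (pderiv 1 f))) +
          3 * a * b ^ 2 * eval p (pderiv 0 (pderiv 1 (pderiv 1 f))) +
          b ^ 3 * eval p (pderiv 1 (pderiv 1 (pderiv 1 f))) ≠ 0 := by
  unfold IsCusp
  simp only [Fin.forall_fin_two, Fin.exists_fin_two, Fin.sum_univ_two, pd_comm]
  constructor
  · rintro ⟨h0, ⟨h1, h2⟩, h3, v, -, ⟨h4, h5⟩, h6⟩
    refine ⟨h0, h1, h2, by tauto, v 0, v 1, h4, h5, fun h => h6 ?_⟩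
    linear_combination h
  · rintro ⟨h0, h1, h2, h3, a, b, h4, h5, h6⟩
    refine ⟨h0, ⟨h1, h2⟩, by tauto, ![a, b], ?_, ⟨by simpa using h4, by simpa using h5⟩, ?_⟩
    · intro h
      have ha : a = 0 := by simpa using congrFun h 0
      have hb : b = 0 := by simpa using congrFun h 1
      apply h6
      simp [ha, hb]
    · intro h
      apply h6
      simp only [Matrix.cons_val_zero, Matrix.cons_val_one] at h
      linear_combination h

/-- The substitution `x ↦ x² - c`, `y ↦ y² - c`. -/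
noncomputable def sq (c : ℝ) : MvPolynomial (Fin 2) ℝ →ₐ[ℝ] MvPolynomial (Fin 2) ℝ :=
  aeval (fun i => X i ^ 2 - C c)

theorem pderiv_sq (c : ℝ) (i : Fin 2) (f : MvPolynomial (Fin 2) ℝ) :
    pderiv i (sq c f) = 2 * X i * sq c (pderiv i f) := by
  induction f using MvPolynomial.induction_on with
  | C a => simp [sq]
  | add p q hp hq => simp [hp, hq, mul_add]
  | mul_X p j h =>
    have hX : sq c (X j) = X j ^ 2 - C c := by simp [sq]
    rw [map_mul, pderiv_mul, h, pderiv_mul, map_add, map_mul, map_mul, hX]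
    by_cases hij : j = i
    · subst hij
      simp
      ring
    · simp [pderiv_X_of_ne hij]
      ring

theorem eval_sq (c : ℝ) (p : Fin 2 → ℝ) (f : MvPolynomial (Fin 2) ℝ) :
    eval p (sq c f) = eval (fun i => p i ^ 2 - c) f := by
  induction f using MvPolynomial.induction_on with
  | C a => simp [sq]
  | add p q hp hq => simp [hp, hq]
  | mul_X p j h =>
    have hX : sq c (X j) = X j ^ 2 - C c := by simp [sq]
    rw [map_mul, hX]
    simp [h]

theorem isCusp_sq (c : ℝ) (p : Fin 2 → ℝ) (f : MvPolynomial (Fin 2) ℝ) (h0 : p 0 ≠ 0)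
    (h1 : p 1 ≠ 0) (h : IsCusp f (fun i => p i ^ 2 - c)) : IsCusp (sq c f) p := by
  rw [isCusp_iff] at h ⊢
  obtain ⟨e0, e1, e2, e3, a, b, e4, e5, e6⟩ := h
  have two : ∀ i : Fin 2, pderiv i (2 : MvPolynomial (Fin 2) ℝ) = 0 := fun i => by
    have : (2 : MvPolynomial (Fin 2) ℝ) = C 2 := rfl
    rw [this, pderiv_C]
  have x01 : pderiv 0 (X 1 : MvPolynomial (Fin 2) ℝ) = 0 := pderiv_X_of_ne (by decide)
  simp only [pderiv_sq, pderiv_mul, two, x01, pderiv_X_self, map_add, map_mul, eval_sq,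
    eval_X, e0, e1, e2, map_ofNat, zero_mul, mul_zero, add_zero,
    zero_add, mul_one, true_and]
  refine ⟨?_, a / (2 * p 0), b / (2 * p 1), ?_, ?_, ?_⟩
  · rcases e3 with e | e | e
    · left; positivity
    · right; left; positivity
    · right; right; positivity
  · field_simp
    linear_combination (2 * p 0) * e4
  · field_simp
    linear_combination (2 * p 1) * e5
  · intro h
    apply e6
    field_simp at h
    have k0 : p 0 ^ 2 * p 1 ^ 2 ≠ 0 := by positivity
    apply mul_left_cancel₀ k0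
    linear_combination (1 / 2 : ℝ) * h - (3 / 2 * p 1 ^ 2 * a ^ 2) * e4 -
      (3 / 2 * p 0 ^ 2 * b ^ 2) * e5

/-- There is a polynomial of degree exactly `D` (monic up to a constant in `x`) with at least
`n` real cusps. -/
def Good (D n : ℕ) : Prop :=
  ∃ (f : MvPolynomial (Fin 2) ℝ) (S : Finset (Fin 2 → ℝ)), f.totalDegree ≤ D ∧
    (∀ y : ℝ, (aeval ![Polynomial.X, Polynomial.C y] f : Polynomial ℝ).natDegree = D) ∧
    S.card = n ∧ ∀ p ∈ S, IsCusp f p

theorem natDegree_le (f : MvPolynomial (Fin 2) ℝ) (y : ℝ) :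
    (aeval ![Polynomial.X, Polynomial.C y] f : Polynomial ℝ).natDegree ≤ f.totalDegree := by
  conv_lhs => rw [f.as_sum]
  rw [map_sum]
  refine Polynomial.natDegree_sum_le_of_forall_le _ _ fun m hm => ?_
  rw [aeval_monomial, Finsupp.prod_fintype _ _ (by simp), Fin.prod_univ_two]
  have h1 := le_totalDegree hm
  rw [Finsupp.sum_fintype _ _ (by simp), Fin.sum_univ_two] at h1
  simp only [Matrix.cons_val_zero, Matrix.cons_val_one, Polynomial.algebraMap_eq,
    ← Polynomial.C_pow]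
  refine (Polynomial.natDegree_C_mul_le _ _).trans ?_
  refine (Polynomial.natDegree_mul_C_le _ _).trans ?_
  simp
  omega

theorem totalDegree_sq (c : ℝ) (f : MvPolynomial (Fin 2) ℝ) :
    (sq c f).totalDegree ≤ 2 * f.totalDegree := by
  conv_lhs => rw [f.as_sum]
  rw [map_sum]
  refine totalDegree_finsetSum_le fun m hm => ?_
  have h1 := le_totalDegree hm
  rw [Finsupp.sum_fintype _ _ (by simp), Fin.sum_univ_two] at h1
  unfold sq
  rw [aeval_monomial, Finsupp.prod_fintype _ _ (by simp), Fin.prod_univ_two]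
  have hx : ∀ i : Fin 2, (X i ^ 2 - C c : MvPolynomial (Fin 2) ℝ).totalDegree ≤ 2 := fun i => by
    refine (totalDegree_sub _ _).trans ?_
    simp [totalDegree_X_pow]
  have a0 := (totalDegree_pow (X 0 ^ 2 - C c : MvPolynomial (Fin 2) ℝ) (m 0)).trans
    (Nat.mul_le_mul_left _ (hx 0))
  have a1 := (totalDegree_pow (X 1 ^ 2 - C c : MvPolynomial (Fin 2) ℝ) (m 1)).trans
    (Nat.mul_le_mul_left _ (hx 1))
  refine (totalDegree_mul _ _).trans ?_
  have a2 := totalDegree_mul ((X 0 ^ 2 - C c : MvPolynomial (Fin 2) ℝ) ^ m 0)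
    ((X 1 ^ 2 - C c : MvPolynomial (Fin 2) ℝ) ^ m 1)
  rw [algebraMap_eq, totalDegree_C]
  omega

theorem aeval_sq (c y : ℝ) (f : MvPolynomial (Fin 2) ℝ) :
    (aeval ![Polynomial.X, Polynomial.C y] (sq c f) : Polynomial ℝ) =
      (aeval ![Polynomial.X, Polynomial.C (y ^ 2 - c)] f : Polynomial ℝ).comp
        (Polynomial.X ^ 2 - Polynomial.C c) := by
  induction f using MvPolynomial.induction_on with
  | C a => simp [sq]
  | add p q hp hq => simp [hp, hq]
  | mul_X p j h =>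
    have hX : sq c (X j) = X j ^ 2 - C c := by simp [sq]
    rw [map_mul, hX, map_mul, h, map_mul, Polynomial.mul_comp]
    congr 1
    fin_cases j <;> simp

theorem Good.double {D n : ℕ} (h : Good D n) : Good (2 * D) (4 * n) := by
  classical
  obtain ⟨f, S, h1, h2, h3, h4⟩ := h
  obtain ⟨c, hc⟩ : ∃ c : ℝ, ∀ p ∈ S, ∀ i, 0 < p i + c := by
    refine ⟨1 + ∑ p ∈ S, ∑ i, |p i|, fun p hp i => ?_⟩
    have a1 : |p i| ≤ ∑ i, |p i| :=
      Finset.single_le_sum (f := fun i => |p i|) (fun _ _ => abs_nonneg _) (Finset.mem_univ i)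
    have a2 : ∑ i, |p i| ≤ ∑ p ∈ S, ∑ i, |p i| :=
      Finset.single_le_sum (f := fun p : Fin 2 → ℝ => ∑ i, |p i|)
        (fun _ _ => Finset.sum_nonneg fun _ _ => abs_nonneg _) hp
    have := neg_abs_le (p i)
    linarith
  let r : (Fin 2 → ℝ) × (Fin 2 → Bool) → (Fin 2 → ℝ) := fun q i =>
    (if q.2 i then 1 else -1) * Real.sqrt (q.1 i + c)
  have hr : ∀ q : (Fin 2 → ℝ) × (Fin 2 → Bool), q.1 ∈ S → ∀ i, r q i ^ 2 - c = q.1 i := by
    intro q hq i
    have := Real.sq_sqrt (hc _ hq i).le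
    simp only [r]
    split_ifs <;> linarith
  have hpos : ∀ p ∈ S, ∀ i, 0 < Real.sqrt (p i + c) := fun p hp i => Real.sqrt_pos.2 (hc p hp i)
  refine ⟨sq c f, (S ×ˢ Finset.univ).image r, (totalDegree_sq c f).trans (by omega), fun y => ?_,
    ?_, ?_⟩
  · rw [aeval_sq, Polynomial.natDegree_comp, h2, Polynomial.natDegree_X_pow_sub_C, mul_comm]
  · rw [Finset.card_image_of_injOn, Finset.card_product, h3]
    · simp [mul_comm]
    · rintro ⟨p, s⟩ hp ⟨q, t⟩ hq hpq
      simp only [Finset.coe_product, Finset.coe_univ, Set.mem_prod, Finset.mem_coe, Set.mem_univ,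
        and_true] at hp hq
      have e : p = q := by
        funext i
        have a := hr (p, s) hp i
        have b := hr (q, t) hq i
        rw [hpq] at a
        simp only at a b
        linarith
      subst e
      congr 1
      funext i
      have a := congrFun hpq i
      have b := hpos p hp i
      simp only [r] at a
      cases hs : s i <;> cases ht : t i <;> simp [hs, ht] at a ⊢ <;> linarith
  · intro p hp
    obtain ⟨q, hq, rfl⟩ := Finset.mem_image.1 hp
    have hq1 : q.1 ∈ S := (Finset.mem_product.1 hq).1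
    have ne : ∀ i, r q i ≠ 0 := fun i => by
      have b := hpos _ hq1 i
      simp only [r]
      split_ifs <;> simp <;> linarith
    refine isCusp_sq c _ f (ne 0) (ne 1) ?_
    have : (fun i => r q i ^ 2 - c) = q.1 := funext (hr q hq1)
    rw [this]
    exact h4 _ hq1

theorem Good.iter {D n : ℕ} (h : Good D n) (k : ℕ) : Good (2 ^ k * D) (4 ^ k * n) := by
  induction k with
  | zero => simpa using h
  | succ k ih =>
    have := ih.double
    rwa [← mul_assoc, ← mul_assoc, ← pow_succ', ← pow_succ'] at this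

theorem not_bound {D n : ℕ} (h : Good D n) (hD : 0 < D) (hn : D ^ 2 < 4 * n) :
    ¬ ∀ ε : ℝ, 0 < ε → ∃ N : ℕ, ∀ d : ℕ, N ≤ d →
      ∀ f : MvPolynomial (Fin 2) ℝ, f.totalDegree = d →
      ∀ S : Finset (Fin 2 → ℝ), (∀ p ∈ S, IsCusp f p) →
        (S.card : ℝ) ≤ (1 / 4 + ε) * (d : ℝ) ^ 2 := by
  intro H
  have hD' : (0 : ℝ) < D := by exact_mod_cast hD
  obtain ⟨N, hN⟩ := H (1 / (8 * (D : ℝ) ^ 2)) (by positivity)
  obtain ⟨f, S, h1, h2, h3, h4⟩ := h.iter N
  have hdeg : f.totalDegree = 2 ^ N * D := le_antisymm h1 (by rw [← h2 0]; exact natDegree_le f 0)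
  have hle : N ≤ 2 ^ N * D := by
    have := Nat.lt_two_pow_self (n := N)
    nlinarith
  have := hN _ hle f hdeg S h4
  rw [h3] at this
  push_cast at this
  have h5 : ((D : ℝ) ^ 2 + 1) ≤ 4 * n := by exact_mod_cast hn
  have h6 : (0 : ℝ) < 4 ^ N := by positivity
  have h7 : ((2 : ℝ) ^ N * D) ^ 2 = 4 ^ N * D ^ 2 := by
    rw [mul_pow, ← pow_mul, mul_comm N 2, pow_mul]; norm_num
  rw [h7] at this
  have h8 : (1 / 4 + 1 / (8 * (D : ℝ) ^ 2)) * (4 ^ N * D ^ 2) = 4 ^ N * (D ^ 2 / 4 + 1 / 8) := by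
    field_simp
  rw [h8] at this
  have := le_of_mul_le_mul_left this h6
  linarith

end Pool.Agent.H561Z.Cusp
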