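import Pool.Agent.H561Z.CuspA

/-!
Cusps of sums of monomials in terms of the values of the monomials.
-/

set_option autoImplicit false

namespace Pool.Agent.H561Z.Cusp

open MvPolynomial

/-- Affine functions of the position. -/
def Aff {ι : Type} (x y : ι → ℝ) (φ : ι → ℝ) : Prop :=
  ∃ a b c : ℝ, ∀ i, φ i = a * x i + b * y i + c

/-- The moment conditions of a cusp. -/
def CW {ι : Type} [Fintype ι] (x y : ι → ℝ) (m : ι → ℝ) : Prop :=
  (∀ φ, Aff x y φ → ∑ i, m i * φ i = 0) ∧ (∃ β, Aff x y β ∧ ∑ i, m i * β i ^ 2 ≠ 0) ∧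
    ∃ α, Aff x y α ∧ (∀ φ, Aff x y φ → ∑ i, m i * (α i * φ i) = 0) ∧ ∑ i, m i * α i ^ 3 ≠ 0

/-- A sum of monomials. -/
noncomputable def poly {ι : Type} [Fintype ι] (x y : ι → ℕ) (a : ι → ℝ) :
    MvPolynomial (Fin 2) ℝ :=
  ∑ i, monomial (Finsupp.single 0 (x i) + Finsupp.single 1 (y i)) (a i)

theorem eval_poly {ι : Type} [Fintype ι] (x y : ι → ℕ) (a : ι → ℝ) (p : Fin 2 → ℝ) :
    eval p (poly x y a) = ∑ i, a i * p 0 ^ x i * p 1 ^ y i := by
  unfold poly
  rw [map_sum]
  refine Finset.sum_congr rfl fun i _ => ?_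
  rw [eval_monomial, Finsupp.prod_fintype _ _ (by simp), Fin.prod_univ_two]
  simp [mul_assoc]

theorem th0_poly {ι : Type} [Fintype ι] (x y : ι → ℕ) (a : ι → ℝ) :
    X 0 * pderiv 0 (poly x y a) = poly x y (fun i => a i * x i) := by
  unfold poly
  rw [map_sum, Finset.mul_sum]
  refine Finset.sum_congr rfl fun i _ => ?_
  rw [X_mul_pderiv_monomial, smul_monomial]
  simp [mul_comm]

theorem th1_poly {ι : Type} [Fintype ι] (x y : ι → ℕ) (a : ι → ℝ) :
    X 1 * pderiv 1 (poly x y a) = poly x y (fun i => a i * y i) := by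
  unfold poly
  rw [map_sum, Finset.mul_sum]
  refine Finset.sum_congr rfl fun i _ => ?_
  rw [X_mul_pderiv_monomial, smul_monomial]
  simp [mul_comm]

theorem isCusp_poly {ι : Type} [Fintype ι] (x y : ι → ℕ) (a : ι → ℝ) (p : Fin 2 → ℝ)
    (h0 : p 0 ≠ 0) (h1 : p 1 ≠ 0)
    (h : CW (fun i => (x i : ℝ)) (fun i => (y i : ℝ)) (fun i => a i * p 0 ^ x i * p 1 ^ y i)) :
    IsCusp (poly x y a) p := by
  set m : ι → ℝ := fun i => a i * p 0 ^ x i * p 1 ^ y i with hm
  have x01 : pderiv 0 (X 1 : MvPolynomial (Fin 2) ℝ) = 0 := pderiv_X_of_ne (by decide)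
  have ev : ∀ g : ι → ℝ, eval p (poly x y (fun i => a i * g i)) = ∑ i, m i * g i := fun g => by
    rw [eval_poly]
    exact Finset.sum_congr rfl fun i _ => by simp only [hm]; ring
  have e0 : eval p (poly x y a) = ∑ i, m i := eval_poly x y a p
  have ex := ev (fun i => x i)
  have ey := ev (fun i => y i)
  have exx := ev (fun i => x i * x i)
  have exy := ev (fun i => y i * x i)
  have eyy := ev (fun i => y i * y i)
  have exxx := ev (fun i => x i * x i * x i)
  have exxy := ev (fun i => y i * x i * x i)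
  have exyy := ev (fun i => y i * y i * x i)
  have eyyy := ev (fun i => y i * y i * y i)
  simp only [← mul_assoc, ← th0_poly, ← th1_poly] at ex ey exx exy eyy exxx exxy exyy eyyy
  simp only [pderiv_mul, x01, pderiv_X_self, map_add, map_mul, eval_X, one_mul, zero_mul,
    zero_add] at ex ey exx exy eyy exxx exxy exyy eyyy
  obtain ⟨c1, ⟨β, ⟨b1, b2, b3, hβ⟩, c2⟩, α, ⟨a1, a2, a3, hα⟩, c3, c4⟩ := h
  have m0 := c1 (fun _ => 1) ⟨0, 0, 1, fun i => by ring⟩
  have mx := c1 (fun i => x i) ⟨1, 0, 0, fun i => by ring⟩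
  have my := c1 (fun i => y i) ⟨0, 1, 0, fun i => by ring⟩
  have nx := c3 (fun i => x i) ⟨1, 0, 0, fun i => by ring⟩
  have ny := c3 (fun i => y i) ⟨0, 1, 0, fun i => by ring⟩
  simp only [mul_one] at m0
  have k2 : ∑ i, m i * β i ^ 2 = b1 ^ 2 * ∑ i, m i * x i * x i + 2 * b1 * b2 * ∑ i, m i * y i * x i
      + b2 ^ 2 * ∑ i, m i * y i * y i + 2 * b1 * b3 * ∑ i, m i * x i
      + 2 * b2 * b3 * ∑ i, m i * y i + b3 ^ 2 * ∑ i, m i := by
    simp only [Finset.mul_sum, ← Finset.sum_add_distrib]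
    exact Finset.sum_congr rfl fun i _ => by rw [hβ]; ring
  have kx : ∑ i, m i * (α i * x i) = a1 * ∑ i, m i * x i * x i + a2 * ∑ i, m i * y i * x i
      + a3 * ∑ i, m i * x i := by
    simp only [Finset.mul_sum, ← Finset.sum_add_distrib]
    exact Finset.sum_congr rfl fun i _ => by rw [hα]; ring
  have ky : ∑ i, m i * (α i * y i) = a1 * ∑ i, m i * y i * x i + a2 * ∑ i, m i * y i * y i
      + a3 * ∑ i, m i * y i := by
    simp only [Finset.mul_sum, ← Finset.sum_add_distrib]
    exact Finset.sum_congr rfl fun i _ => by rw [hα]; ring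
  have k3 : ∑ i, m i * α i ^ 3 = a1 ^ 3 * ∑ i, m i * x i * x i * x i
      + 3 * a1 ^ 2 * a2 * ∑ i, m i * y i * x i * x i
      + 3 * a1 * a2 ^ 2 * ∑ i, m i * y i * y i * x i + a2 ^ 3 * ∑ i, m i * y i * y i * y i
      + 3 * a3 * (a1 * ∑ i, m i * (α i * x i) + a2 * ∑ i, m i * (α i * y i))
      + a3 ^ 3 * ∑ i, m i := by
    simp only [Finset.mul_sum, mul_add, ← Finset.sum_add_distrib]
    exact Finset.sum_congr rfl fun i _ => by rw [hα]; ring
  rw [mx] at ex
  rw [my] at ey
  have fx := (mul_eq_zero.1 ex).resolve_left h0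
  have fy := (mul_eq_zero.1 ey).resolve_left h1
  rw [isCusp_iff]
  rw [fx] at exx exxx
  rw [fy] at eyy eyyy
  rw [mx, my, m0] at k2
  rw [mx, nx] at kx
  rw [my, ny] at ky
  rw [nx, ny, m0] at k3
  rw [← exx, ← exy, ← eyy] at k2
  rw [← exx, ← exy] at kx
  rw [← exy, ← eyy] at ky
  rw [← exxx, ← exxy, ← exyy, ← eyyy] at k3
  refine ⟨e0.trans m0, fx, fy, ?_, a1 * p 0, a2 * p 1, ?_, ?_, ?_⟩
  · by_contra hc
    push Not at hc
    apply c2
    rw [k2, hc.1, hc.2.1, hc.2.2]
    ring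
  · apply mul_left_cancel₀ h0
    linear_combination -kx
  · apply mul_left_cancel₀ h1
    linear_combination -ky
  · intro hc
    apply c4
    rw [k3]
    linear_combination hc - 3 * a1 ^ 2 * kx - 3 * a2 ^ 2 * ky

theorem good_poly {ι J : Type} [Fintype ι] [Fintype J] (x y : ι → ℕ) (a : ι → ℝ) (D : ℕ)
    (hD : ∀ i, a i ≠ 0 → x i + y i ≤ D) (i0 : ι) (hx : x i0 = D) (hy : y i0 = 0)
    (hi : ∀ i, x i = D → y i = 0 → i = i0) (ha : a i0 ≠ 0) (P : J → Fin 2 → ℝ)
    (hP : Function.Injective P) (hc : ∀ j, IsCusp (poly x y a) (P j)) :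
    Good D (Fintype.card J) := by
  classical
  have hdeg : (poly x y a).totalDegree ≤ D := by
    unfold poly
    refine totalDegree_finsetSum_le fun i _ => ?_
    by_cases h : a i = 0
    · simp [h]
    · rw [totalDegree_monomial _ h, Finsupp.sum_fintype _ _ (by simp), Fin.sum_univ_two]
      simpa using hD i h
  refine ⟨poly x y a, Finset.univ.image P, hdeg, fun t => ?_, ?_, ?_⟩
  · refine le_antisymm ((natDegree_le _ t).trans hdeg) (Polynomial.le_natDegree_of_ne_zero ?_)
    have : (aeval ![Polynomial.X, Polynomial.C t] (poly x y a) : Polynomial ℝ) =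
        ∑ i, Polynomial.monomial (x i) (a i * t ^ y i) := by
      unfold poly
      rw [map_sum]
      refine Finset.sum_congr rfl fun i _ => ?_
      rw [aeval_monomial, Finsupp.prod_fintype _ _ (by simp), Fin.prod_univ_two,
        ← Polynomial.C_mul_X_pow_eq_monomial]
      simp
      ring
    rw [this, Polynomial.finsetSum_coeff, Finset.sum_eq_single i0]
    · simp [hx, hy, ha]
    · intro i _ hne
      rw [Polynomial.coeff_monomial]
      split_ifs with h
      · by_cases h' : a i = 0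
        · simp [h']
        · have := hD i h'
          exact absurd (hi i h (by omega)) hne
      · rfl
    · simp
  · rw [Finset.card_image_of_injective _ hP, Finset.card_univ]
  · intro p hp
    obtain ⟨j, -, rfl⟩ := Finset.mem_image.1 hp
    exact hc j

end Pool.Agent.H561Z.Cusp
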