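import Mathlib

/-!
Persistence of a finite family of cusp conditions under small perturbations.
-/

set_option autoImplicit false

namespace Pool.Agent.H561Z.Cusp

open Filter Topology

/-- Parameters and unknowns. -/
abbrev Unk (ι J : Type) := (J → ι → ℝ) × (ι → ℝ) × (J → ℝ) × (J → ℝ) × (J → ℝ)

/-- The perturbed weights. -/
noncomputable def mm {ι J : Type} (α β : J → ι → ℝ) (z : Unk ι J) (j : J) (i : ι) : ℝ :=
  z.1 j i * z.2.1 i * Real.exp (z.2.2.1 j * α j i + z.2.2.2.1 j * β j i)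

/-- The equations. -/
noncomputable def GG {ι J : Type} [Fintype ι] (α β : J → ι → ℝ) (z : Unk ι J) :
    (J → ι → ℝ) × (J → ℝ) × (J → ℝ) × (J → ℝ) × (J → ℝ) × (J → ℝ) :=
  (z.1, fun j => ∑ i, mm α β z j i, fun j => ∑ i, mm α β z j i * α j i,
    fun j => ∑ i, mm α β z j i * β j i,
    fun j => ∑ i, mm α β z j i * ((α j i + z.2.2.2.2 j * β j i) * α j i),
    fun j => ∑ i, mm α β z j i * ((α j i + z.2.2.2.2 j * β j i) * β j i))

theorem contDiff_mm {ι J : Type} [Fintype ι] [Fintype J] (α β : J → ι → ℝ) (j : J) (i : ι) :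
    ContDiff ℝ 1 (fun z : Unk ι J => mm α β z j i) := by
  unfold mm
  fun_prop

theorem contDiff_GG {ι J : Type} [Fintype ι] [Fintype J] (α β : J → ι → ℝ) :
    ContDiff ℝ 1 (GG α β : Unk ι J → _) := by
  unfold GG mm
  fun_prop

theorem deriv_mm {ι J : Type} (α β μ0 : J → ι → ℝ) (η : Unk ι J) (j : J) (i : ι) :
    HasDerivAt (fun r : ℝ => mm α β (((μ0, 1, 0, 0, 0) : Unk ι J) + r • η) j i)
      (η.1 j i + μ0 j i * (η.2.1 i + η.2.2.1 j * α j i + η.2.2.2.1 j * β j i)) 0 := by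
  have h1 : HasDerivAt (fun r : ℝ => μ0 j i + r * η.1 j i) (η.1 j i) 0 := by
    simpa using ((hasDerivAt_id (0 : ℝ)).mul_const (η.1 j i)).const_add (μ0 j i)
  have h2 : HasDerivAt (fun r : ℝ => 1 + r * η.2.1 i) (η.2.1 i) 0 := by
    simpa using ((hasDerivAt_id (0 : ℝ)).mul_const (η.2.1 i)).const_add 1
  have h3 : HasDerivAt (fun r : ℝ => r * η.2.2.1 j * α j i + r * η.2.2.2.1 j * β j i)
      (η.2.2.1 j * α j i + η.2.2.2.1 j * β j i) 0 := by
    simpa using (((hasDerivAt_id (0 : ℝ)).mul_const (η.2.2.1 j)).mul_const (α j i)).fun_add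
      (((hasDerivAt_id (0 : ℝ)).mul_const (η.2.2.2.1 j)).mul_const (β j i))
  have := (h1.fun_mul h2).fun_mul h3.exp
  have e : (fun r : ℝ => mm α β (((μ0, 1, 0, 0, 0) : Unk ι J) + r • η) j i) = fun r =>
      (μ0 j i + r * η.1 j i) * (1 + r * η.2.1 i) *
        Real.exp (r * η.2.2.1 j * α j i + r * η.2.2.2.1 j * β j i) := by
    funext r
    simp [mm]
  rw [e]
  refine this.congr_deriv ?_
  simp
  ring

theorem deriv_GG {ι J : Type} [Fintype ι] [Fintype J] (α β μ0 : J → ι → ℝ) (η : Unk ι J) :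
    HasDerivAt (fun r : ℝ => GG α β (((μ0, 1, 0, 0, 0) : Unk ι J) + r • η))
      (η.1,
        fun j => ∑ i, (η.1 j i + μ0 j i * (η.2.1 i + η.2.2.1 j * α j i + η.2.2.2.1 j * β j i)),
        fun j => ∑ i, (η.1 j i + μ0 j i * (η.2.1 i + η.2.2.1 j * α j i + η.2.2.2.1 j * β j i))
          * α j i,
        fun j => ∑ i, (η.1 j i + μ0 j i * (η.2.1 i + η.2.2.1 j * α j i + η.2.2.2.1 j * β j i))
          * β j i,
        fun j => ∑ i, ((η.1 j i + μ0 j i * (η.2.1 i + η.2.2.1 j * α j i + η.2.2.2.1 j * β j i))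
          * (α j i * α j i) + μ0 j i * (η.2.2.2.2 j * β j i * α j i)),
        fun j => ∑ i, ((η.1 j i + μ0 j i * (η.2.1 i + η.2.2.1 j * α j i + η.2.2.2.1 j * β j i))
          * (α j i * β j i) + μ0 j i * (η.2.2.2.2 j * β j i * β j i))) 0 := by
  have hs : ∀ (j : J) (i : ι) (c : ℝ), HasDerivAt (fun r : ℝ =>
      (α j i + (((μ0, 1, 0, 0, 0) : Unk ι J) + r • η).2.2.2.2 j * β j i) * c)
      (η.2.2.2.2 j * β j i * c) 0 := by
    intro j i c
    simpa using ((((hasDerivAt_id (0 : ℝ)).mul_const (η.2.2.2.2 j)).mul_const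
      (β j i)).const_add (α j i)).mul_const c
  unfold GG
  refine HasDerivAt.prodMk ?_ (HasDerivAt.prodMk ?_ (HasDerivAt.prodMk ?_ (HasDerivAt.prodMk ?_
    (HasDerivAt.prodMk ?_ ?_))))
  · simpa using ((hasDerivAt_id (0 : ℝ)).smul_const η.1).const_add μ0
  · exact hasDerivAt_pi.2 fun j => HasDerivAt.fun_sum fun i _ => deriv_mm α β μ0 η j i
  · exact hasDerivAt_pi.2 fun j => HasDerivAt.fun_sum fun i _ =>
      (deriv_mm α β μ0 η j i).mul_const _
  · exact hasDerivAt_pi.2 fun j => HasDerivAt.fun_sum fun i _ =>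
      (deriv_mm α β μ0 η j i).mul_const _
  · refine hasDerivAt_pi.2 fun j => HasDerivAt.fun_sum fun i _ => ?_
    refine ((deriv_mm α β μ0 η j i).fun_mul (hs j i (α j i))).congr_deriv ?_
    simp [mm]
  · refine hasDerivAt_pi.2 fun j => HasDerivAt.fun_sum fun i _ => ?_
    refine ((deriv_mm α β μ0 η j i).fun_mul (hs j i (β j i))).congr_deriv ?_
    simp [mm]

theorem perturb {ι J : Type} [Fintype ι] [Fintype J] (μ0 α β : J → ι → ℝ)
    (h1 : ∀ j, ∑ i, μ0 j i = 0) (h2 : ∀ j, ∑ i, μ0 j i * α j i = 0)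
    (h3 : ∀ j, ∑ i, μ0 j i * β j i = 0) (h4 : ∀ j, ∑ i, μ0 j i * (α j i * α j i) = 0)
    (h5 : ∀ j, ∑ i, μ0 j i * (α j i * β j i) = 0) (h6 : ∀ j, ∑ i, μ0 j i * β j i ^ 2 ≠ 0)
    (h7 : ∀ j, ∑ i, μ0 j i * α j i ^ 3 ≠ 0)
    (hs : ∀ τ σ : J → ℝ, ∃ g : ι → ℝ, ∀ j, ∑ i, μ0 j i * g i = τ j ∧
      ∑ i, μ0 j i * α j i * g i = σ j) :
    ∀ᶠ μ in 𝓝 μ0, ∃ z : Unk ι J, z.1 = μ ∧ (∀ i, z.2.1 i ≠ 0) ∧
      (∀ j, ∑ i, mm α β z j i = 0 ∧ ∑ i, mm α β z j i * α j i = 0 ∧
        ∑ i, mm α β z j i * β j i = 0 ∧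
        ∑ i, mm α β z j i * ((α j i + z.2.2.2.2 j * β j i) * α j i) = 0 ∧
        ∑ i, mm α β z j i * ((α j i + z.2.2.2.2 j * β j i) * β j i) = 0 ∧
        ∑ i, mm α β z j i * β j i ^ 2 ≠ 0 ∧
        ∑ i, mm α β z j i * (α j i + z.2.2.2.2 j * β j i) ^ 3 ≠ 0) ∧
      ∀ j j', j ≠ j' → ∀ c : ℝ, ¬ ∀ i, mm α β z j i = c * mm α β z j' i := by
  classical
  set z0 : Unk ι J := (μ0, 1, 0, 0, 0) with hz0
  have hm0 : ∀ j i, mm α β z0 j i = μ0 j i := fun j i => by simp [mm, hz0]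
  have hd : HasStrictFDerivAt (GG α β) (fderiv ℝ (GG α β) z0) z0 :=
    (contDiff_GG α β).contDiffAt.hasStrictFDerivAt (by simp)
  have hline : ∀ η : Unk ι J, HasDerivAt (fun r : ℝ => GG α β (z0 + r • η))
      (fderiv ℝ (GG α β) z0 η) 0 := by
    intro η
    have a : HasDerivAt (fun r : ℝ => z0 + r • η) η 0 := by
      simpa using ((hasDerivAt_id (0 : ℝ)).smul_const η).const_add z0
    exact HasFDerivAt.comp_hasDerivAt_of_eq (0 : ℝ) hd.hasFDerivAt a (by simp)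
  have hsurj : (fderiv ℝ (GG α β) z0).range = ⊤ := by
    rw [LinearMap.range_eq_top]
    rintro ⟨p, v1, v2, v3, v4, v5⟩
    obtain ⟨g, hg⟩ := hs (fun j => v1 j - ∑ i, p j i) (fun j => v2 j - ∑ i, p j i * α j i)
    let τ : J → ℝ := fun j => (v3 j - ∑ i, (p j i + μ0 j i * g i) * β j i) /
      ∑ i, μ0 j i * β j i ^ 2
    let σ : J → ℝ := fun j => (v4 j - ∑ i, (p j i + μ0 j i * (g i + τ j * β j i)) *
      (α j i * α j i)) / ∑ i, μ0 j i * α j i ^ 3
    let s : J → ℝ := fun j => (v5 j - ∑ i, (p j i + μ0 j i * (g i + σ j * α j i + τ j * β j i)) *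
      (α j i * β j i)) / ∑ i, μ0 j i * β j i ^ 2
    refine ⟨(p, g, σ, τ, s), ?_⟩
    have := (hline (p, g, σ, τ, s)).unique (deriv_GG α β μ0 (p, g, σ, τ, s))
    change fderiv ℝ (GG α β) z0 (p, g, σ, τ, s) = _
    rw [this]
    simp only [Prod.mk.injEq, true_and]
    refine ⟨funext fun j => ?_, funext fun j => ?_, funext fun j => ?_, funext fun j => ?_,
      funext fun j => ?_⟩
    · have e : ∑ i, (p j i + μ0 j i * (g i + σ j * α j i + τ j * β j i)) =
          ∑ i, p j i + ∑ i, μ0 j i * g i + σ j * ∑ i, μ0 j i * α j i +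
            τ j * ∑ i, μ0 j i * β j i := by
        simp only [Finset.mul_sum, ← Finset.sum_add_distrib]
        exact Finset.sum_congr rfl fun i _ => by ring
      rw [e, (hg j).1, h2, h3]
      ring
    · have e : ∑ i, (p j i + μ0 j i * (g i + σ j * α j i + τ j * β j i)) * α j i =
          ∑ i, p j i * α j i + ∑ i, μ0 j i * α j i * g i + σ j * ∑ i, μ0 j i * (α j i * α j i) +
            τ j * ∑ i, μ0 j i * (α j i * β j i) := by
        simp only [Finset.mul_sum, ← Finset.sum_add_distrib]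
        exact Finset.sum_congr rfl fun i _ => by ring
      rw [e, (hg j).2, h4, h5]
      ring
    · have e : ∑ i, (p j i + μ0 j i * (g i + σ j * α j i + τ j * β j i)) * β j i =
          ∑ i, (p j i + μ0 j i * g i) * β j i + σ j * ∑ i, μ0 j i * (α j i * β j i) +
            τ j * ∑ i, μ0 j i * β j i ^ 2 := by
        simp only [Finset.mul_sum, ← Finset.sum_add_distrib]
        exact Finset.sum_congr rfl fun i _ => by ring
      rw [e, h5, div_mul_cancel₀ _ (h6 j)]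
      ring
    · have e : ∑ i, ((p j i + μ0 j i * (g i + σ j * α j i + τ j * β j i)) * (α j i * α j i) +
            μ0 j i * (s j * β j i * α j i)) =
          ∑ i, (p j i + μ0 j i * (g i + τ j * β j i)) * (α j i * α j i) +
            σ j * ∑ i, μ0 j i * α j i ^ 3 + s j * ∑ i, μ0 j i * (α j i * β j i) := by
        simp only [Finset.mul_sum, ← Finset.sum_add_distrib]
        exact Finset.sum_congr rfl fun i _ => by ring
      rw [e, h5, div_mul_cancel₀ _ (h7 j)]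
      ring
    · have e : ∑ i, ((p j i + μ0 j i * (g i + σ j * α j i + τ j * β j i)) * (α j i * β j i) +
            μ0 j i * (s j * β j i * β j i)) =
          ∑ i, (p j i + μ0 j i * (g i + σ j * α j i + τ j * β j i)) * (α j i * β j i) +
            s j * ∑ i, μ0 j i * β j i ^ 2 := by
        simp only [Finset.mul_sum, ← Finset.sum_add_distrib]
        exact Finset.sum_congr rfl fun i _ => by ring
      rw [e, div_mul_cancel₀ _ (h6 j)]
      ring
  have hmap := hd.map_nhds_eq_of_surj hsurj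
  have hc : ∀ j i, Continuous (fun z : Unk ι J => mm α β z j i) := fun j i =>
    (contDiff_mm α β j i).continuous
  choose g hg using fun j : J => hs (Pi.single j 1) 0
  have o1 : ∀ᶠ z in 𝓝 z0, ∀ i, z.2.1 i ≠ 0 := by
    refine eventually_all.2 fun i => ContinuousAt.eventually_ne (by fun_prop) ?_
    simp [hz0]
  have o2 : ∀ᶠ z in 𝓝 z0, ∀ j, ∑ i, mm α β z j i * β j i ^ 2 ≠ 0 := by
    refine eventually_all.2 fun j => ContinuousAt.eventually_ne (by fun_prop) ?_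
    simpa [hm0] using h6 j
  have o3 : ∀ᶠ z in 𝓝 z0, ∀ j, ∑ i, mm α β z j i * (α j i + z.2.2.2.2 j * β j i) ^ 3 ≠ 0 := by
    refine eventually_all.2 fun j => ContinuousAt.eventually_ne (by fun_prop) ?_
    simp only [hm0]
    simpa [hz0] using h7 j
  have o4 : ∀ᶠ z in 𝓝 z0, ∀ j j', j ≠ j' →
      (∑ i, mm α β z j i * g j i) * (∑ i, mm α β z j' i * g j' i) -
        (∑ i, mm α β z j i * g j' i) * (∑ i, mm α β z j' i * g j i) ≠ 0 := by
    refine eventually_all.2 fun j => eventually_all.2 fun j' => ?_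
    by_cases h : j = j'
    · simp [h]
    · simp only [ne_eq, h, not_false_eq_true, forall_const]
      refine ContinuousAt.eventually_ne (by fun_prop) ?_
      simp only [hm0, fun j j' => (hg j j').1]
      simp [h]
  have key : ∀ᶠ w in 𝓝 (GG α β z0), ∃ z, GG α β z = w ∧ (∀ i, z.2.1 i ≠ 0) ∧
      (∀ j, ∑ i, mm α β z j i * β j i ^ 2 ≠ 0) ∧
      (∀ j, ∑ i, mm α β z j i * (α j i + z.2.2.2.2 j * β j i) ^ 3 ≠ 0) ∧
      ∀ j j', j ≠ j' →
      (∑ i, mm α β z j i * g j i) * (∑ i, mm α β z j' i * g j' i) -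
        (∑ i, mm α β z j i * g j' i) * (∑ i, mm α β z j' i * g j i) ≠ 0 := by
    rw [← hmap, eventually_map]
    filter_upwards [o1, o2, o3, o4] with z a b c d using ⟨z, rfl, a, b, c, d⟩
  have hG0 : GG α β z0 = (μ0, 0, 0, 0, 0, 0) := by
    simp only [GG, hm0, Prod.mk.injEq]
    refine ⟨rfl, funext h1, funext h2, funext h3, funext fun j => ?_, funext fun j => ?_⟩
    · simpa [hz0] using h4 j
    · simpa [hz0] using h5 j
  rw [hG0] at key
  have ht : Tendsto (fun μ : J → ι → ℝ => ((μ, 0, 0, 0, 0, 0) :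
      (J → ι → ℝ) × (J → ℝ) × (J → ℝ) × (J → ℝ) × (J → ℝ) × (J → ℝ))) (𝓝 μ0)
      (𝓝 (μ0, 0, 0, 0, 0, 0)) := Continuous.tendsto (by fun_prop) μ0
  filter_upwards [ht.eventually key] with μ ⟨z, hz, a, b, c, d⟩
  simp only [GG, Prod.mk.injEq] at hz
  obtain ⟨z1, z2, z3, z4, z5, z6⟩ := hz
  refine ⟨z, z1, a, fun j => ⟨congrFun z2 j, congrFun z3 j, congrFun z4 j, congrFun z5 j,
    congrFun z6 j, b j, c j⟩, fun j j' hne k hk => d j j' hne ?_⟩
  simp only [hk, mul_assoc, ← Finset.mul_sum]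
  ring

end Pool.Agent.H561Z.Cusp
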