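import Pool.Agent.H561Z.CuspB
import Pool.Agent.H561Z.CuspC

/-!
Patchworking of curves with real cusps.
-/

set_option autoImplicit false

namespace Pool.Agent.H561Z.Cusp

open Filter Topology

/-- A local model: finitely many cusps of one curve with monomials indexed by `U`. -/
def Model {U K : Type} [Fintype U] (px py : U → ℝ) (sg : K → U → ℝ) : Prop :=
  ∃ (ρ : U → ℝ) (μ α : K → U → ℝ),
    (∀ j, ∃ φ, Aff px py φ ∧ ∀ u, μ j u = sg j u * Real.exp (ρ u + φ u)) ∧
    (∀ j, Aff px py (α j)) ∧ (∀ j φ, Aff px py φ → ∑ u, μ j u * φ u = 0) ∧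
    (∀ j, ∃ β, Aff px py β ∧ ∑ u, μ j u * β u ^ 2 ≠ 0) ∧
    (∀ j φ, Aff px py φ → ∑ u, μ j u * (α j u * φ u) = 0) ∧
    (∀ j, ∑ u, μ j u * α j u ^ 3 ≠ 0) ∧
    ∀ τ σ : K → ℝ, ∃ g : U → ℝ, ∀ j, ∑ u, μ j u * g u = τ j ∧ ∑ u, μ j u * α j u * g u = σ j

theorem aff_eq {U : Type} (px py qx qy : U → ℝ) (A B C D E F : ℝ) (h : A * D - B * C ≠ 0)
    (hx : ∀ u, qx u = A * px u + B * py u + E) (hy : ∀ u, qy u = C * px u + D * py u + F) :
    Aff qx qy = Aff px py := by
  funext φ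
  apply propext
  constructor
  · rintro ⟨a, b, c, hφ⟩
    exact ⟨a * A + b * C, a * B + b * D, a * E + b * F + c, fun u => by rw [hφ, hx, hy]; ring⟩
  · rintro ⟨a, b, c, hφ⟩
    obtain ⟨w, hw⟩ : ∃ w, w * (A * D - B * C) = 1 := ⟨_, inv_mul_cancel₀ h⟩
    refine ⟨(a * D - b * C) * w, (b * A - a * B) * w,
      c - ((a * D - b * C) * E + (b * A - a * B) * F) * w, fun u => ?_⟩
    rw [hφ, hx, hy]
    linear_combination (-(a * px u + b * py u)) * hw

theorem Model.transport {U K : Type} [Fintype U] {px py qx qy : U → ℝ} {sg : K → U → ℝ}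
    (h : Aff qx qy = Aff px py) (hM : Model px py sg) : Model qx qy sg := by
  unfold Model at hM ⊢
  rw [h]
  exact hM

theorem indep {U : Type} [Fintype U] (px py μ α β : U → ℝ) (a1 a2 a3 b1 b2 b3 : ℝ)
    (hα : ∀ u, α u = a1 * px u + a2 * py u + a3) (hβ : ∀ u, β u = b1 * px u + b2 * py u + b3)
    (h1 : ∑ u, μ u = 0) (h2 : ∑ u, μ u * α u = 0) (h3 : ∑ u, μ u * (α u * α u) = 0)
    (h4 : ∑ u, μ u * β u ^ 2 ≠ 0) (h5 : ∑ u, μ u * α u ^ 3 ≠ 0) : a1 * b2 - a2 * b1 ≠ 0 := by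
  intro h
  have key : ∀ a b k : ℝ, (∀ u, a * β u = b * α u + k) → a = 0 := by
    intro a b k hk
    have : a ^ 2 * ∑ u, μ u * β u ^ 2 = b ^ 2 * ∑ u, μ u * (α u * α u) +
        2 * b * k * ∑ u, μ u * α u + k ^ 2 * ∑ u, μ u := by
      simp only [Finset.mul_sum, ← Finset.sum_add_distrib]
      refine Finset.sum_congr rfl fun u _ => ?_
      linear_combination (μ u * (a * β u + b * α u + k)) * hk u
    rw [h1, h2, h3] at this
    simpa [h4] using this
  have e1 : a1 = 0 := key a1 b1 (a1 * b3 - b1 * a3) fun u => by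
    rw [hα, hβ]; linear_combination (py u) * h
  have e2 : a2 = 0 := key a2 b2 (a2 * b3 - b2 * a3) fun u => by
    rw [hα, hβ]; linear_combination (-px u) * h
  apply h5
  have : ∑ u, μ u * α u ^ 3 = a3 ^ 3 * ∑ u, μ u := by
    rw [Finset.mul_sum]
    refine Finset.sum_congr rfl fun u _ => ?_
    rw [hα, e1, e2]
    ring
  rw [this, h1, mul_zero]

theorem glue {ι C : Type} [Fintype C] {U : C → Type} (x y : ι → ℝ) (e : (c : C) → U c → ι)
    (hinj : ∀ c, Function.Injective (e c)) (rk : C → ℕ) (hrk : Function.Injective rk)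
    (n1 n2 n3 : (c : C) → U c)
    (hdet : ∀ c, (x (e c (n2 c)) - x (e c (n1 c))) * (y (e c (n3 c)) - y (e c (n1 c))) -
      (x (e c (n3 c)) - x (e c (n1 c))) * (y (e c (n2 c)) - y (e c (n1 c))) ≠ 0)
    (hnew : ∀ c c' u u', rk c' < rk c → e c u = e c' u' → u = n1 c ∨ u = n2 c ∨ u = n3 c)
    (g : (c : C) → U c → ℝ) :
    ∃ r : ι → ℝ, ∀ c, Aff (fun u => x (e c u)) (fun u => y (e c u))
      (fun u => r (e c u) - g c u) := by
  classical
  have main : ∀ k : ℕ, ∃ r : ι → ℝ, ∀ c, rk c < k → Aff (fun u => x (e c u)) (fun u => y (e c u))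
      (fun u => r (e c u) - g c u) := by
    intro k
    induction k with
    | zero => exact ⟨0, fun c h => absurd h (Nat.not_lt_zero _)⟩
    | succ k ih =>
      obtain ⟨r, hr⟩ := ih
      by_cases hk : ∃ c, rk c = k
      · obtain ⟨c, hc⟩ := hk
        obtain ⟨a, b, d, h1, h2, h3⟩ : ∃ a b d : ℝ,
            r (e c (n1 c)) - g c (n1 c) = a * x (e c (n1 c)) + b * y (e c (n1 c)) + d ∧
            r (e c (n2 c)) - g c (n2 c) = a * x (e c (n2 c)) + b * y (e c (n2 c)) + d ∧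
            r (e c (n3 c)) - g c (n3 c) = a * x (e c (n3 c)) + b * y (e c (n3 c)) + d := by
          have hd := hdet c
          generalize r (e c (n1 c)) - g c (n1 c) = t1
          generalize r (e c (n2 c)) - g c (n2 c) = t2
          generalize r (e c (n3 c)) - g c (n3 c) = t3
          generalize x (e c (n1 c)) = x1 at hd ⊢
          generalize x (e c (n2 c)) = x2 at hd ⊢
          generalize x (e c (n3 c)) = x3 at hd ⊢
          generalize y (e c (n1 c)) = y1 at hd ⊢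
          generalize y (e c (n2 c)) = y2 at hd ⊢
          generalize y (e c (n3 c)) = y3 at hd ⊢
          obtain ⟨w, hw⟩ : ∃ w, w * ((x2 - x1) * (y3 - y1) - (x3 - x1) * (y2 - y1)) = 1 :=
            ⟨_, inv_mul_cancel₀ hd⟩
          refine ⟨((t2 - t1) * (y3 - y1) - (t3 - t1) * (y2 - y1)) * w,
            ((x2 - x1) * (t3 - t1) - (x3 - x1) * (t2 - t1)) * w,
            t1 - (((t2 - t1) * (y3 - y1) - (t3 - t1) * (y2 - y1)) * x1 +
              ((x2 - x1) * (t3 - t1) - (x3 - x1) * (t2 - t1)) * y1) * w, ?_, ?_, ?_⟩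
          · ring
          · linear_combination (t1 - t2) * hw
          · linear_combination (t1 - t3) * hw
        let r' : ι → ℝ := Function.extend (e c)
          (fun u => g c u + (a * x (e c u) + b * y (e c u) + d)) r
        have hr' : ∀ u, r' (e c u) = g c u + (a * x (e c u) + b * y (e c u) + d) := fun u =>
          (hinj c).extend_apply _ _ u
        refine ⟨r', fun c' hc' => ?_⟩
        by_cases hcc : rk c' = k
        · have : c' = c := hrk (hcc.trans hc.symm)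
          subst this
          exact ⟨a, b, d, fun u => by simp only [hr']; ring⟩
        · have hlt : rk c' < k := by omega
          have : ∀ u', r' (e c' u') = r (e c' u') := by
            intro u'
            by_cases hu : ∃ u, e c u = e c' u'
            · obtain ⟨u, hu⟩ := hu
              rw [← hu, hr']
              rcases hnew c c' u u' (by omega) hu with rfl | rfl | rfl
              · linarith
              · linarith
              · linarith
            · exact Function.extend_apply' _ _ _ hu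
          simp only [this]
          exact hr c' hlt
      · refine ⟨r, fun c hc => hr c ?_⟩
        have : rk c ≠ k := fun h => hk ⟨c, h⟩
        omega
  obtain ⟨r, hr⟩ := main (∑ c, rk c + 1)
  refine ⟨r, fun c => hr c ?_⟩
  have := Finset.single_le_sum (f := rk) (fun _ _ => Nat.zero_le _) (Finset.mem_univ c)
  omega

theorem patch {ι C : Type} [Fintype ι] [Fintype C] {U K : C → Type} [∀ c, Fintype (U c)]
    [∀ c, Fintype (K c)] (x y : ι → ℕ) (e : (c : C) → U c → ι)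
    (hinj : ∀ c, Function.Injective (e c)) (sg : (c : C) → K c → U c → ℝ)
    (hM : ∀ c, Model (fun u => (x (e c u) : ℝ)) (fun u => (y (e c u) : ℝ)) (sg c))
    (hglue : ∀ g : (c : C) → U c → ℝ, ∃ r : ι → ℝ, ∀ c,
      Aff (fun u => (x (e c u) : ℝ)) (fun u => (y (e c u) : ℝ)) (fun u => r (e c u) - g c u))
    (ε : ι → ℝ) (s s0 s1 : (c : C) → K c → ℝ) (hs : ∀ c j, s c j ≠ 0) (hs0 : ∀ c j, s0 c j ≠ 0)
    (hs1 : ∀ c j, s1 c j ≠ 0)
    (hsg : ∀ c j u, sg c j u = s c j * ε (e c u) * s0 c j ^ x (e c u) * s1 c j ^ y (e c u))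
    (ν : ι → ℝ) (l1 l2 l3 : C → ℝ)
    (hν : ∀ c u, ν (e c u) = l1 c * x (e c u) + l2 c * y (e c u) + l3 c)
    (hν' : ∀ c i, (∃ u, e c u = i) ∨ ε i = 0 ∨ l1 c * x i + l2 c * y i + l3 c < ν i) :
    ∃ a : ι → ℝ, (∀ i, a i ≠ 0 ↔ ε i ≠ 0) ∧ ∃ P : (Σ c, K c) → Fin 2 → ℝ,
      Function.Injective P ∧ ∀ j, IsCusp (poly x y a) (P j) := by
  classical
  choose ρ μ α hφ hα m1 hβ m2 m3 hsurj using hM
  choose φ hφ hμ using hφ
  choose f1 f2 f3 hf using hφ
  choose a1 a2 a3 ha using hα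
  choose β hβ m4 using hβ
  choose b1 b2 b3 hb using hβ
  obtain ⟨r, hr⟩ := hglue ρ
  choose k1 k2 k3 hk using hr
  let αg : (Σ c, K c) → ι → ℝ := fun j i => a1 j.1 j.2 * x i + a2 j.1 j.2 * y i + a3 j.1 j.2
  let βg : (Σ c, K c) → ι → ℝ := fun j i => b1 j.1 j.2 * x i + b2 j.1 j.2 * y i + b3 j.1 j.2
  let w : (Σ c, K c) → ι → ℝ := fun j i =>
    s j.1 j.2 * ε i * s0 j.1 j.2 ^ x i * s1 j.1 j.2 ^ y i *
      Real.exp (r i - (k1 j.1 * x i + k2 j.1 * y i + k3 j.1) +
        (f1 j.1 j.2 * x i + f2 j.1 j.2 * y i + f3 j.1 j.2))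
  let μT : ℝ → (Σ c, K c) → ι → ℝ := fun T j i =>
    w j i * Real.exp (-(T * (ν i - (l1 j.1 * x i + l2 j.1 * y i + l3 j.1))))
  let μ0 : (Σ c, K c) → ι → ℝ := fun j i => if ∃ u, e j.1 u = i then w j i else 0
  have hw : ∀ (j : Σ c, K c) u, μ0 j (e j.1 u) = μ j.1 j.2 u := by
    intro j u
    have : ∃ u', e j.1 u' = e j.1 u := ⟨u, rfl⟩
    simp only [μ0, this, if_true, w]
    rw [hμ, hsg, hf]
    congr 2
    have := hk j.1 u
    simp only at this
    linarith
  have hsum : ∀ (j : Σ c, K c) (ψ : ι → ℝ),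
      ∑ i, μ0 j i * ψ i = ∑ u, μ j.1 j.2 u * ψ (e j.1 u) := by
    intro j ψ
    symm
    refine Fintype.sum_of_injective (e j.1) (hinj _) _ _ (fun i hi => ?_) (fun u => by rw [hw])
    have : ¬ ∃ u, e j.1 u = i := hi
    simp [μ0, this]
  have hαg : ∀ (j : Σ c, K c) u, αg j (e j.1 u) = α j.1 j.2 u := fun j u => (ha _ _ _).symm
  have hβg : ∀ (j : Σ c, K c) u, βg j (e j.1 u) = β j.1 j.2 u := fun j u => (hb _ _ _).symm
  have Aα : ∀ c j, Aff (fun u => (x (e c u) : ℝ)) (fun u => (y (e c u) : ℝ)) (α c j) :=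
    fun c j => ⟨_, _, _, ha c j⟩
  have Aβ : ∀ c j, Aff (fun u => (x (e c u) : ℝ)) (fun u => (y (e c u) : ℝ)) (β c j) :=
    fun c j => ⟨_, _, _, hb c j⟩
  have q1 : ∀ c j, ∑ u, μ c j u = 0 := fun c j => by
    simpa using m1 c j (fun _ => 1) ⟨0, 0, 1, fun u => by ring⟩
  have hlim : Tendsto μT atTop (𝓝 μ0) := by
    refine tendsto_pi_nhds.2 fun j => tendsto_pi_nhds.2 fun i => ?_
    by_cases h : ∃ u, e j.1 u = i
    · obtain ⟨u, rfl⟩ := h
      have : ∃ u', e j.1 u' = e j.1 u := ⟨u, rfl⟩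
      simp only [μT, μ0, this, if_true, hν, sub_self, mul_zero, neg_zero, Real.exp_zero, mul_one]
      exact tendsto_const_nhds
    · simp only [μT, μ0, h, if_false]
      rcases hν' j.1 i with h' | h' | h'
      · exact absurd h' h
      · simp [w, h']
      · have := (Real.tendsto_exp_neg_atTop_nhds_zero.comp
          (tendsto_id.atTop_mul_const (sub_pos.2 h'))).const_mul (w j i)
        simpa using this
  have hp := perturb μ0 αg βg
    (fun j => by simpa using (hsum j (fun _ => 1)).trans (by simpa using q1 j.1 j.2))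
    (fun j => by rw [hsum]; simp only [hαg]; exact m1 _ _ _ (Aα _ _))
    (fun j => by rw [hsum]; simp only [hβg]; exact m1 _ _ _ (Aβ _ _))
    (fun j => by rw [hsum j (fun i => αg j i * αg j i)]; simp only [hαg]; exact m2 _ _ _ (Aα _ _))
    (fun j => by
      rw [hsum j (fun i => αg j i * βg j i)]; simp only [hαg, hβg]; exact m2 _ _ _ (Aβ _ _))
    (fun j => by rw [hsum j (fun i => βg j i ^ 2)]; simp only [hβg]; exact m4 _ _)
    (fun j => by rw [hsum j (fun i => αg j i ^ 3)]; simp only [hαg]; exact m3 _ _)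
    (by
      intro τ σ
      choose g hg using fun c => hsurj c (fun j => τ ⟨c, j⟩) (fun j => σ ⟨c, j⟩)
      obtain ⟨G, hG⟩ := hglue g
      refine ⟨G, fun j => ⟨?_, ?_⟩⟩
      · rw [hsum]
        have a := m1 _ j.2 _ (hG j.1)
        have b := (hg j.1 j.2).1
        simp only [mul_sub, Finset.sum_sub_distrib] at a
        simp only [Sigma.eta] at b
        linarith
      · simp only [mul_assoc]
        rw [hsum j (fun i => αg j i * G i)]
        have a := m2 _ j.2 _ (hG j.1)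
        have b := (hg j.1 j.2).2
        simp only [mul_sub, Finset.sum_sub_distrib] at a
        simp only [Sigma.eta, mul_assoc] at b
        simp only [hαg]
        linarith)
  obtain ⟨T, z, hz, hb0, hcw, hnp⟩ := (hlim.eventually hp).exists
  let a : ι → ℝ := fun i => ε i * z.2.1 i * Real.exp (r i - T * ν i)
  let P : (Σ c, K c) → Fin 2 → ℝ := fun j =>
    ![s0 j.1 j.2 * Real.exp (-k1 j.1 + f1 j.1 j.2 + T * l1 j.1 + z.2.2.1 j * a1 j.1 j.2 +
        z.2.2.2.1 j * b1 j.1 j.2),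
      s1 j.1 j.2 * Real.exp (-k2 j.1 + f2 j.1 j.2 + T * l2 j.1 + z.2.2.1 j * a2 j.1 j.2 +
        z.2.2.2.1 j * b2 j.1 j.2)]
  let n : (Σ c, K c) → ℝ := fun j =>
    s j.1 j.2 * Real.exp (-k3 j.1 + f3 j.1 j.2 + T * l3 j.1 + z.2.2.1 j * a3 j.1 j.2 +
        z.2.2.2.1 j * b3 j.1 j.2)
  have hn : ∀ j, n j ≠ 0 := fun j => mul_ne_zero (hs _ _) (Real.exp_pos _).ne'
  have hmm : ∀ j i, mm αg βg z j i = n j * (a i * P j 0 ^ x i * P j 1 ^ y i) := by
    intro j i
    simp only [mm, hz, μT, w, n, a, P, Matrix.cons_val_zero, Matrix.cons_val_one, mul_pow,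
      ← Real.exp_nat_mul, αg, βg]
    have : ∀ A1 A2 A3 B1 B2 B3 B4 p q t u v : ℝ, A1 + A2 + A3 = B1 + B2 + B3 + B4 →
        p * q * t * u * Real.exp A1 * Real.exp A2 * v * Real.exp A3 =
        p * Real.exp B1 * (q * v * Real.exp B2 * (t * Real.exp B3) * (u * Real.exp B4)) := by
      intro A1 A2 A3 B1 B2 B3 B4 p q t u v h
      have h' := congrArg Real.exp h
      simp only [Real.exp_add] at h'
      linear_combination (p * q * t * u * v) * h'
    apply this
    ring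
  refine ⟨a, fun i => ?_, P, fun j j' hjj => ?_, fun j => ?_⟩
  · simp [a, hb0 i, (Real.exp_pos _).ne']
  · by_contra hne
    refine hnp j j' hne (n j / n j') fun i => ?_
    rw [hmm, hmm, hjj]
    have := hn j'
    field_simp
  · refine isCusp_poly x y a (P j) (mul_ne_zero (hs0 _ _) (Real.exp_pos _).ne')
      (mul_ne_zero (hs1 _ _) (Real.exp_pos _).ne') ?_
    obtain ⟨c1, c2, c3, c4, c5, c6, c7⟩ := hcw j
    simp only [hmm, mul_assoc (n j), ← Finset.mul_sum, mul_eq_zero, hn j, false_or,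
      ne_eq] at c1 c2 c3 c4 c5 c6 c7
    have hd := indep _ _ (μ j.1 j.2) _ _ _ _ _ _ _ _ (ha j.1 j.2) (hb j.1 j.2) (q1 _ _)
      (m1 _ _ _ (Aα _ _)) (m2 _ _ _ (Aα _ _)) (m4 _ _) (m3 _ _)
    have hspan : Aff (fun i => (x i : ℝ)) (fun i => (y i : ℝ)) = Aff (αg j) (βg j) :=
      (aff_eq _ _ _ _ _ _ _ _ _ _ hd (fun i => rfl) (fun i => rfl)).symm
    set m : ι → ℝ := fun i => a i * P j 0 ^ x i * P j 1 ^ y i with hm
    unfold CW
    rw [hspan]
    refine ⟨?_, ⟨βg j, ⟨0, 1, 0, fun i => by ring⟩, c6⟩,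
      fun i => αg j i + z.2.2.2.2 j * βg j i, ⟨1, z.2.2.2.2 j, 0, fun i => by ring⟩, ?_, c7⟩
    · rintro ψ ⟨p, q, t, hψ⟩
      have : ∑ i, m i * ψ i = p * ∑ i, m i * αg j i + q * ∑ i, m i * βg j i + t * ∑ i, m i := by
        simp only [Finset.mul_sum, ← Finset.sum_add_distrib]
        exact Finset.sum_congr rfl fun i _ => by rw [hψ]; ring
      rw [this, c1, c2, c3]
      ring
    · rintro ψ ⟨p, q, t, hψ⟩
      have : ∑ i, m i * ((αg j i + z.2.2.2.2 j * βg j i) * ψ i) =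
          p * ∑ i, m i * ((αg j i + z.2.2.2.2 j * βg j i) * αg j i) +
          q * ∑ i, m i * ((αg j i + z.2.2.2.2 j * βg j i) * βg j i) +
          t * ∑ i, m i * αg j i + t * z.2.2.2.2 j * ∑ i, m i * βg j i := by
        simp only [Finset.mul_sum, ← Finset.sum_add_distrib]
        exact Finset.sum_congr rfl fun i _ => by rw [hψ]; ring
      rw [this, c2, c3, c4, c5]
      ring

end Pool.Agent.H561Z.Cusp
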