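import Pool.Agent.H561Z.CuspD

/-!
The two local models: a kite with one cusp and a pentagon with two cusps.
-/

set_option autoImplicit false

namespace Pool.Agent.H561Z.Cusp

/-- Kite: first coordinates. -/
def qx : Fin 5 → ℤ := ![0, 1, 2, 0, 1]
/-- Kite: second coordinates. -/
def qy : Fin 5 → ℤ := ![0, 0, 2, 1, 1]
/-- Kite: signs. -/
def qs : Fin 1 → Fin 5 → ℤ := fun _ => ![-1, 1, 1, 1, -1]
/-- Pentagon: first coordinates. -/
def px : Fin 7 → ℤ := ![0, 1, 3, 1, 0, 1, 2]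
/-- Pentagon: second coordinates. -/
def py : Fin 7 → ℤ := ![0, 0, 1, 2, 1, 1, 1]
/-- Pentagon: signs. -/
def ps : Fin 2 → Fin 7 → ℤ := ![![1, -1, -1, 1, -1, -1, 1], ![1, -1, 1, 1, 1, 1, -1]]

theorem modelQ : Model (fun u => (qx u : ℝ)) (fun u => (qy u : ℝ)) (fun j u => (qs j u : ℝ)) := by
  refine ⟨fun u => Real.log (![3, 4, 1, 4, 6] u), fun _ => ![-3, 4, 1, 4, -6],
    fun _ => ![0, 1, 4, 1, 2], fun _ => ⟨0, ⟨0, 0, 0, fun u => by simp⟩, fun u => ?_⟩,
    fun _ => ⟨1, 1, 0, fun u => ?_⟩, ?_, fun _ => ⟨fun u => qx u, ⟨1, 0, 0, fun u => by ring⟩, ?_⟩,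
    ?_, fun _ => ?_, fun τ σ => ⟨![(σ 0 - τ 0) / 3, σ 0 / 4, 0, 0, 0], fun j => ?_⟩⟩
  · rw [Pi.zero_apply, add_zero, Real.exp_log (by fin_cases u <;> simp)]
    fin_cases u <;> simp [qs]
  · fin_cases u <;> simp [qx, qy] <;> norm_num
  · rintro _ φ ⟨a, b, c, h⟩
    simp [h, Fin.sum_univ_succ, qx, qy]
    ring
  · simp [Fin.sum_univ_succ, qx]
    norm_num
  · rintro _ φ ⟨a, b, c, h⟩
    simp [h, Fin.sum_univ_succ, qx, qy]
    ring
  · simp [Fin.sum_univ_succ]
    norm_num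
  · rw [Subsingleton.elim j 0]
    simp [Fin.sum_univ_succ]
    constructor <;> ring

/-- Pentagon: values of the monomials at the cusp. -/
noncomputable def pm (s : ℝ) : Fin 7 → ℝ :=
  ![1, -1 / 2 + s / 4, 4 / 3 - 7 / 9 * s, 1 / 2 + s / 4, -1 / 3 - 2 / 9 * s, -5 / 6 * s,
    -2 + 4 / 3 * s]

/-- Pentagon: the cuspidal direction. -/
noncomputable def pa (s : ℝ) : Fin 7 → ℝ := fun u => px u + (-4 + 2 * s) * py u

theorem exp_mono (c X Y : ℝ) (hc : 0 < c) (hX : 0 < X) (hY : 0 < Y) (n m : ℤ) :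
    Real.exp (Real.log c + (Real.log X * n + Real.log Y * m + 0)) = c * X ^ n * Y ^ m := by
  rw [add_zero, Real.exp_add, Real.exp_add, Real.exp_log hc, ← Real.rpow_def_of_pos hX,
    ← Real.rpow_def_of_pos hY, Real.rpow_intCast, Real.rpow_intCast, mul_assoc]

theorem pm_mul (s : ℝ) (hs : s ^ 2 = 3) (u : Fin 7) :
    pm s u * pa s u = ![0, -1 / 2 + s / 4, -6 + 31 / 9 * s, -1 / 2 + s / 4, 2 / 9 * s,
      -5 + 5 / 2 * s, 12 - 20 / 3 * s] u := by
  fin_cases u <;> simp [pm, pa, px, py] <;> nlinarith [hs]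

theorem modelP : Model (fun u => (px u : ℝ)) (fun u => (py u : ℝ)) (fun j u => (ps j u : ℝ)) := by
  obtain ⟨s, hs, h1, h2⟩ : ∃ s : ℝ, s ^ 2 = 3 ∧ 1.7 < s ∧ s < 1.74 := by
    refine ⟨Real.sqrt 3, Real.sq_sqrt (by norm_num), ?_, ?_⟩
    · exact Real.lt_sqrt_of_sq_lt (by norm_num)
    · exact (Real.sqrt_lt' (by norm_num)).2 (by norm_num)
  let t : Fin 2 → ℝ := ![s, -s]
  have ht : ∀ j, t j ^ 2 = 3 := fun j => by fin_cases j <;> simp [t, hs]
  refine ⟨fun u => Real.log (![1, 1, 64, 27, 1, 30, 96] u), fun j => pm (t j), fun j => pa (t j),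
    ?_, fun j => ⟨1, -4 + 2 * t j, 0, fun u => by simp [pa]⟩, ?_,
    fun j => ⟨fun u => py u, ⟨0, 1, 0, fun u => by ring⟩, ?_⟩, ?_, fun j => ?_, fun τ σ => ?_⟩
  · intro j
    fin_cases j
    · refine ⟨_, ⟨Real.log ((2 - s) / 4), Real.log ((3 + 2 * s) / 9), 0, fun u => rfl⟩,
        fun u => ?_⟩
      rw [exp_mono _ _ _ (by fin_cases u <;> simp) (by linarith) (by linarith)]
      fin_cases u
      · simp [pm, ps, px, py]
      · simp [pm, ps, px, py, t]; ring
      · simp [pm, ps, px, py, t, zpow_ofNat]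
        linear_combination (-(4 / 3) + s - 2 / 9 * s ^ 2) * hs
      · simp [pm, ps, px, py, t, zpow_ofNat]
        linear_combination (1 / 3 + s / 3) * hs
      · simp [pm, ps, px, py, t]; ring
      · simp [pm, ps, px, py, t]
        linear_combination (-(5 / 3)) * hs
      · simp [pm, ps, px, py, t, zpow_ofNat]
        linear_combination (10 / 3 - 4 / 3 * s) * hs
    · refine ⟨_, ⟨Real.log ((2 + s) / 4), Real.log ((2 * s - 3) / 9), 0, fun u => rfl⟩,
        fun u => ?_⟩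
      rw [exp_mono _ _ _ (by fin_cases u <;> simp) (by linarith) (by linarith)]
      fin_cases u
      · simp [pm, ps, px, py]
      · simp [pm, ps, px, py, t]; ring
      · simp [pm, ps, px, py, t, zpow_ofNat]
        linear_combination (-(4 / 3) - s - 2 / 9 * s ^ 2) * hs
      · simp [pm, ps, px, py, t, zpow_ofNat]
        linear_combination (1 / 3 - s / 3) * hs
      · simp [pm, ps, px, py, t]; ring
      · simp [pm, ps, px, py, t]
        linear_combination (-(5 / 3)) * hs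
      · simp [pm, ps, px, py, t, zpow_ofNat]
        linear_combination (10 / 3 + 4 / 3 * s) * hs
  · rintro j φ ⟨a, b, c, h⟩
    simp [h, Fin.sum_univ_succ, px, py, pm]
    ring
  · have : ∑ u, pm (t j) u * ((py u : ℤ) : ℝ) ^ 2 = 1 + t j / 2 := by
      simp [Fin.sum_univ_succ, py, pm]
      ring
    rw [this]
    fin_cases j <;> simp [t] <;> intro h <;> linarith
  · rintro j φ ⟨a, b, c, h⟩
    simp only [← mul_assoc, pm_mul _ (ht j)]
    simp [h, Fin.sum_univ_succ, px, py]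
    ring
  · have : ∑ u, pm (t j) u * pa (t j) u ^ 3 = -64 + 112 / 3 * t j := by
      simp [Fin.sum_univ_succ, px, py, pm, pa]
      linear_combination (24 - 42 * t j + 12 * t j ^ 2) * ht j
    rw [this]
    have h3 : 1.73 < s := by nlinarith
    fin_cases j <;> simp [t] <;> intro h <;> linarith
  · have key : ∀ a b c d r : ℝ, r ^ 2 = 3 →
        ∑ u, pm r u * ![a - 3 / 2 * b - c / 2 - 3 / 2 * d, 0, 0, 3 * b - 2 * c - 3 * d, 0,
          -3 / 10 * b - 9 / 5 * c - 33 / 10 * d, -3 / 4 * c - 3 / 2 * d] u = a + b * r ∧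
        ∑ u, pm r u * pa r u * ![a - 3 / 2 * b - c / 2 - 3 / 2 * d, 0, 0, 3 * b - 2 * c - 3 * d, 0,
          -3 / 10 * b - 9 / 5 * c - 33 / 10 * d, -3 / 4 * c - 3 / 2 * d] u = c + d * r := by
      intro a b c d r hr
      simp only [pm_mul _ hr]
      simp [Fin.sum_univ_succ, pm]
      constructor <;> ring
    have := fun j => key ((τ 0 + τ 1) / 2) ((τ 0 - τ 1) * s / 6) ((σ 0 + σ 1) / 2)
      ((σ 0 - σ 1) * s / 6) (t j) (ht j)
    refine ⟨_, fun j => ⟨(this j).1.trans ?_, (this j).2.trans ?_⟩⟩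
    · fin_cases j <;> simp [t]
      · linear_combination ((τ 0 - τ 1) / 6) * hs
      · linear_combination (-(τ 0 - τ 1) / 6) * hs
    · fin_cases j <;> simp [t]
      · linear_combination ((σ 0 - σ 1) / 6) * hs
      · linear_combination (-(σ 0 - σ 1) / 6) * hs

end Pool.Agent.H561Z.Cusp
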