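import Pool.Agent.H561Z.CuspE

/-!
A subdivision of the triangle of size 17 with 19 kites and 27 pentagons.
-/

set_option autoImplicit false

namespace Pool.Agent.H561Z.Cusp

/-- Data table. -/
def xsQ : List (List ℕ) :=
  [[2, 1, 2, 3, 2],
   [4, 4, 2, 3, 3],
   [13, 14, 13, 12, 13],
   [15, 16, 15, 14, 15],
   [5, 6, 5, 4, 5],
   [12, 12, 10, 11, 11],
   [5, 6, 7, 5, 6],
   [10, 9, 10, 11, 10],
   [8, 7, 8, 9, 8],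
   [4, 5, 4, 3, 4],
   [7, 6, 9, 9, 8],
   [7, 7, 9, 8, 8],
   [7, 6, 7, 8, 7],
   [4, 5, 6, 4, 5],
   [3, 2, 1, 3, 2],
   [6, 5, 4, 6, 5],
   [4, 5, 4, 3, 4],
   [0, 1, 2, 0, 1],
   [0, 0, 2, 1, 1]]

/-- Data table. -/
def ysQ : List (List ℕ) :=
  [[2, 3, 0, 0, 1],
   [0, 1, 2, 0, 1],
   [0, 0, 2, 1, 1],
   [0, 1, 2, 0, 1],
   [0, 0, 2, 1, 1],
   [0, 1, 2, 0, 1],
   [2, 0, 0, 3, 1],
   [2, 3, 0, 0, 1],
   [4, 4, 2, 3, 3],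
   [5, 5, 7, 6, 6],
   [7, 7, 5, 6, 6],
   [8, 7, 8, 9, 8],
   [10, 10, 8, 9, 9],
   [8, 8, 10, 9, 9],
   [11, 13, 13, 10, 12],
   [11, 12, 11, 10, 11],
   [11, 12, 13, 11, 12],
   [15, 13, 13, 16, 14],
   [17, 16, 13, 16, 15]]

/-- Data table. -/
def matQ : List (List ℤ) :=
  [[-1, 1, 1, -2, 2, 2],
   [0, -1, 1, 0, 4, 0],
   [1, -1, 0, 1, 13, 0],
   [1, -1, 1, 0, 15, 0],
   [1, -1, 0, 1, 5, 0],
   [0, -1, 1, 0, 12, 0],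
   [1, 0, -2, 1, 5, 2],
   [-1, 1, 1, -2, 10, 2],
   [-1, 1, 0, -1, 8, 4],
   [1, -1, 0, 1, 4, 5],
   [-1, 2, 0, -1, 7, 7],
   [0, 1, -1, 1, 7, 8],
   [-1, 1, 0, -1, 7, 10],
   [1, 0, 0, 1, 4, 8],
   [-1, 0, 2, -1, 3, 11],
   [-1, 0, 1, -1, 6, 11],
   [1, -1, 1, 0, 4, 11],
   [1, 0, -2, 1, 0, 15],
   [0, 1, -1, -1, 0, 17]]

/-- Data table. -/
def lamQ : List (List ℤ) :=
  [[-5262894, -5097006, 39965508],
   [-5142906, -5037012, 39605544],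
   [1386720, -938304, -22324896],
   [1816992, -778464, -28348704],
   [-5035446, -4964490, 39103182],
   [851904, -1445472, -15399936],
   [-4626234, -4759884, 36647910],
   [-1289088, -2515968, 8150976],
   [-1650672, -2207952, 10481184],
   [-3813048, -2324916, 22842108],
   [483840, 988416, -19868544],
   [653130, 1375596, -23763834],
   [596700, 1432026, -23820264],
   [-681048, 1958040, -21413916],
   [-3017220, 5736456, -46521936],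
   [-2506230, 5864508, -49527504],
   [-2570256, 5928534, -49975686],
   [-3017220, 5851024, -48011320],
   [-2944200, 5899704, -48790200]]

/-- Data table. -/
def rkQ : List (List ℕ) :=
  [[44, 0, 1, 3],
   [43, 0, 1, 2],
   [42, 1, 2, 3],
   [41, 0, 2, 3],
   [39, 1, 2, 3],
   [38, 1, 2, 3],
   [37, 0, 2, 3],
   [30, 0, 1, 2],
   [25, 0, 1, 3],
   [21, 1, 2, 3],
   [18, 0, 1, 3],
   [16, 0, 1, 3],
   [15, 0, 1, 2],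
   [10, 0, 2, 3],
   [4, 0, 1, 2],
   [6, 1, 2, 3],
   [3, 0, 2, 3],
   [1, 0, 2, 3],
   [0, 0, 1, 2]]

/-- Data table. -/
def xsP : List (List ℕ) :=
  [[0, 0, 1, 2, 1, 1, 1],
   [13, 13, 14, 15, 14, 14, 14],
   [8, 8, 9, 10, 9, 9, 9],
   [8, 7, 5, 7, 8, 7, 6],
   [1, 2, 5, 4, 2, 3, 4],
   [4, 3, 2, 5, 5, 4, 3],
   [0, 1, 3, 1, 0, 1, 2],
   [4, 3, 1, 3, 4, 3, 2],
   [0, 1, 3, 1, 0, 1, 2],
   [8, 7, 5, 7, 8, 7, 6],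
   [13, 12, 10, 12, 13, 12, 11],
   [4, 5, 7, 5, 4, 5, 6],
   [9, 10, 12, 10, 9, 10, 11],
   [13, 12, 10, 12, 13, 12, 11],
   [8, 7, 4, 5, 7, 6, 5],
   [8, 7, 6, 9, 9, 8, 7],
   [9, 10, 12, 10, 9, 10, 11],
   [10, 9, 7, 9, 10, 9, 8],
   [7, 7, 6, 5, 6, 6, 6],
   [5, 6, 7, 4, 4, 5, 6],
   [4, 3, 1, 3, 4, 3, 2],
   [0, 1, 3, 1, 0, 1, 2],
   [4, 3, 1, 3, 4, 3, 2],
   [0, 1, 3, 1, 0, 1, 2],
   [3, 4, 6, 4, 3, 4, 5],
   [0, 1, 3, 1, 0, 1, 2],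
   [2, 2, 3, 4, 3, 3, 3]]

/-- Data table. -/
def ysP : List (List ℕ) :=
  [[1, 2, 3, 0, 0, 1, 2],
   [3, 2, 0, 2, 3, 2, 1],
   [1, 2, 3, 0, 0, 1, 2],
   [1, 2, 3, 0, 0, 1, 2],
   [3, 3, 2, 1, 2, 2, 2],
   [4, 4, 3, 2, 3, 3, 3],
   [3, 3, 4, 5, 4, 4, 4],
   [4, 4, 5, 6, 5, 5, 5],
   [5, 5, 6, 7, 6, 6, 6],
   [1, 2, 5, 4, 2, 3, 4],
   [3, 3, 2, 1, 2, 2, 2],
   [4, 3, 2, 5, 5, 4, 3],
   [4, 4, 3, 2, 3, 3, 3],
   [3, 3, 4, 5, 4, 4, 4],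
   [4, 5, 7, 5, 4, 5, 6],
   [4, 5, 7, 5, 4, 5, 6],
   [4, 4, 5, 6, 5, 5, 5],
   [6, 6, 7, 8, 7, 7, 7],
   [7, 8, 10, 8, 7, 8, 9],
   [8, 7, 5, 7, 8, 7, 6],
   [8, 8, 7, 6, 7, 7, 7],
   [9, 9, 8, 7, 8, 8, 8],
   [8, 8, 9, 10, 9, 9, 9],
   [9, 9, 10, 11, 10, 10, 10],
   [11, 11, 10, 9, 10, 10, 10],
   [12, 11, 10, 13, 13, 12, 11],
   [14, 13, 11, 13, 14, 13, 12]]

/-- Data table. -/
def matP : List (List ℤ) :=
  [[0, 1, 1, -1, 0, 1],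
   [0, 1, -1, 0, 13, 3],
   [0, 1, 1, -1, 8, 1],
   [-1, 0, 1, -1, 8, 1],
   [1, 1, 0, -1, 1, 3],
   [-1, 1, 0, -1, 4, 4],
   [1, 0, 0, 1, 0, 3],
   [-1, 0, 0, 1, 4, 4],
   [1, 0, 0, 1, 0, 5],
   [-1, 0, 1, 1, 8, 1],
   [-1, 0, 0, -1, 13, 3],
   [1, 0, -1, 1, 4, 4],
   [1, 0, 0, -1, 9, 4],
   [-1, 0, 0, 1, 13, 3],
   [-1, -1, 1, 0, 8, 4],
   [-1, 1, 1, 0, 8, 4],
   [1, 0, 0, 1, 9, 4],
   [-1, 0, 0, 1, 10, 6],
   [0, -1, 1, 0, 7, 7],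
   [1, -1, -1, 0, 5, 8],
   [-1, 0, 0, -1, 4, 8],
   [1, 0, 0, -1, 0, 9],
   [-1, 0, 0, 1, 4, 8],
   [1, 0, 0, 1, 0, 9],
   [1, 0, 0, -1, 3, 11],
   [1, 0, -1, 1, 0, 12],
   [0, 1, -1, 0, 2, 14]]

/-- Data table. -/
def lamP : List (List ℤ) :=
  [[-5268888, -5099004, 39977496],
   [1761696, -750816, -27574560],
   [-1329264, -2529360, 8552736],
   [-4319568, -4555440, 34501248],
   [-5082912, -4917024, 39245580],
   [-5030532, -4759884, 38669400],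
   [-5347998, -4177332, 37291590],
   [-5030532, -3542400, 33799464],
   [-6627879, -347706, 19423341],
   [-2293488, -2529360, 16266528],
   [1199232, -750816, -20262528],
   [-3813048, -3542400, 28929528],
   [958176, -268704, -18816192],
   [1199232, 213408, -23155200],
   [-1650672, -1243728, 6624288],
   [288576, 695520, -16646688],
   [958176, 695520, -22673088],
   [665280, 1351296, -23678784],
   [483840, 1375596, -22578804],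
   [-681048, 210708, -7435260],
   [-6348672, 210708, 15235236],
   [-6785505, 1084374, 9556407],
   [-6348672, 1958040, 1256580],
   [-6785505, 2831706, -6169581],
   [-2570256, 5736456, -47862828],
   [-6491085, 3420546, -12941241],
   [-2601660, 5944236, -50054196]]

/-- Data table. -/
def rkP : List (List ℕ) :=
  [[45, 0, 2, 3],
   [40, 0, 1, 2],
   [29, 0, 1, 2],
   [36, 0, 1, 2],
   [35, 0, 1, 2],
   [34, 0, 1, 4],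
   [33, 0, 2, 3],
   [31, 0, 3, 4],
   [32, 1, 2, 3],
   [26, 2, 3, 4],
   [28, 0, 1, 2],
   [27, 2, 3, 4],
   [24, 0, 1, 2],
   [23, 0, 2, 3],
   [20, 0, 1, 2],
   [19, 1, 2, 3],
   [22, 0, 3, 4],
   [17, 0, 2, 3],
   [14, 2, 3, 4],
   [13, 0, 3, 4],
   [12, 0, 1, 2],
   [11, 0, 1, 2],
   [9, 2, 3, 4],
   [8, 0, 2, 3],
   [5, 0, 1, 4],
   [7, 0, 2, 3],
   [2, 0, 1, 2]]

/-- Data table. -/
def sgQ : List (List ℤ) :=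
  [[-1, 1, 1],
   [1, -1, 1],
   [-1, 1, 1],
   [-1, -1, -1],
   [1, -1, 1],
   [1, -1, -1],
   [1, 1, -1],
   [-1, 1, 1],
   [1, 1, -1],
   [1, -1, -1],
   [1, 1, 1],
   [-1, 1, 1],
   [1, 1, -1],
   [1, -1, 1],
   [1, -1, -1],
   [1, 1, -1],
   [-1, -1, -1],
   [1, -1, -1],
   [1, 1, -1]]

/-- Data table. -/
def sgP : List (List ℤ) :=
  [[-1, 1, -1, -1, -1, -1],
   [1, 1, 1, -1, -1, 1],
   [-1, 1, -1, -1, -1, -1],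
   [1, 1, 1, -1, -1, -1],
   [-1, -1, -1, 1, -1, 1],
   [-1, 1, -1, -1, 1, 1],
   [-1, 1, -1, 1, 1, 1],
   [-1, 1, 1, -1, 1, -1],
   [-1, -1, -1, 1, -1, 1],
   [-1, -1, -1, 1, 1, 1],
   [-1, -1, 1, 1, -1, -1],
   [-1, -1, 1, -1, 1, -1],
   [1, -1, -1, 1, -1, 1],
   [1, -1, -1, -1, -1, 1],
   [-1, 1, -1, -1, -1, 1],
   [-1, -1, 1, -1, 1, -1],
   [1, -1, 1, 1, -1, -1],
   [1, -1, -1, 1, -1, 1],
   [-1, 1, 1, 1, -1, 1],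
   [1, -1, -1, -1, 1, 1],
   [-1, 1, -1, -1, 1, 1],
   [-1, 1, 1, 1, 1, -1],
   [-1, 1, 1, -1, 1, -1],
   [1, 1, -1, -1, 1, 1],
   [-1, -1, -1, 1, -1, 1],
   [1, 1, 1, 1, -1, -1],
   [1, 1, 1, 1, -1, 1]]

/-- Data table. -/
def epsT : List (List ℤ) :=
  [[1, 1, 1, 1, 1, 1, 1, 1, 1, -1, -1, 1, 1, -1, 1, 1, 1, 1],
   [1, -1, -1, -1, 1, 1, -1, -1, 1, 1, -1, -1, -1, 1, 1, 1, 1, 0],
   [-1, 1, 1, -1, -1, -1, -1, 1, -1, -1, 1, 1, -1, -1, 1, 1, 0, 0],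
   [-1, 1, -1, 1, 1, 1, -1, -1, 1, 1, -1, -1, 1, -1, -1, 0, 0, 0],
   [-1, 1, -1, -1, -1, 1, -1, -1, -1, 1, 1, -1, 1, 1, 0, 0, 0, 0],
   [1, 1, -1, -1, -1, 1, -1, -1, -1, 1, 1, 1, 1, 0, 0, 0, 0, 0],
   [1, 1, 1, -1, -1, -1, 1, 1, 1, -1, 1, 1, 0, 0, 0, 0, 0, 0],
   [1, -1, -1, 1, 1, -1, 1, -1, 1, 1, -1, 0, 0, 0, 0, 0, 0, 0],
   [-1, 1, 1, 1, -1, 1, -1, -1, 1, -1, 0, 0, 0, 0, 0, 0, 0, 0],
   [1, -1, -1, -1, -1, 1, 1, -1, -1, 0, 0, 0, 0, 0, 0, 0, 0, 0],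
   [-1, 1, 1, 1, -1, -1, 1, 1, 0, 0, 0, 0, 0, 0, 0, 0, 0, 0],
   [-1, -1, 1, 1, -1, -1, 1, 0, 0, 0, 0, 0, 0, 0, 0, 0, 0, 0],
   [-1, -1, 1, 1, -1, -1, 0, 0, 0, 0, 0, 0, 0, 0, 0, 0, 0, 0],
   [1, 1, -1, 1, 1, 0, 0, 0, 0, 0, 0, 0, 0, 0, 0, 0, 0, 0],
   [-1, 1, -1, -1, 0, 0, 0, 0, 0, 0, 0, 0, 0, 0, 0, 0, 0, 0],
   [-1, 1, 1, 0, 0, 0, 0, 0, 0, 0, 0, 0, 0, 0, 0, 0, 0, 0],
   [1, 1, 0, 0, 0, 0, 0, 0, 0, 0, 0, 0, 0, 0, 0, 0, 0, 0],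
   [1, 0, 0, 0, 0, 0, 0, 0, 0, 0, 0, 0, 0, 0, 0, 0, 0, 0]]

/-- Data table. -/
def nuT : List (List ℤ) :=
  [[40053312, 34878492, 29779488, 24759594, 20582262, 17684811, 17337105, 17193600, 18231399, 19315773, 22147479, 25035264, 28105311, 31525857, 35059392, 39754040, 45605064, 51504768],
   [34708608, 29609604, 24510600, 19411596, 15234264, 11056932, 10709226, 10361520, 11445894, 12530268, 15361974, 18193680, 21614226, 25034772, 30885796, 36761160, 42660864, 0],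
   [29439720, 24342714, 19245708, 14328684, 9886266, 6026400, 4081347, 4012848, 4660389, 6181596, 8576469, 11702595, 16281096, 22017552, 27961788, 33982848, 0, 0],
   [24176826, 19139814, 14162796, 9298152, 4538268, 995868, -2546532, -2335824, -2125116, -167076, 1790964, 7527420, 13471656, 19415892, 25360128, 0, 0, 0],
   [19033920, 13996908, 9079884, 4267620, -492264, -4034664, -6359580, -8684496, -8473788, -6515748, -779292, 4957164, 10885698, 16814232, 0, 0, 0, 0],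
   [13925952, 8961462, 3996972, -762912, -4305312, -7847712, -9091440, -9365544, -9154836, -7196796, -3349548, 2450934, 8315442, 0, 0, 0, 0, 0],
   [8890506, 4130622, -527040, -4575960, -7611840, -9498384, -10257300, -10046592, -8670996, -7295400, -5919804, -55296, 0, 0, 0, 0, 0, 0],
   [4264272, -291168, -4846608, -7375968, -9905328, -11149056, -10453536, -9562752, -8187156, -6755130, -5323104, 0, 0, 0, 0, 0, 0, 0],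
   [-55296, -4610736, -7140096, -9348048, -11556000, -10860480, -10067328, -8897472, -7534026, -6158430, 0, 0, 0, 0, 0, 0, 0, 0],
   [-3410640, -5940000, -8469360, -10998720, -11267424, -10571904, -9583488, -8232192, -6880896, 0, 0, 0, 0, 0, 0, 0, 0, 0],
   [-4739904, -7255872, -9771840, -10040544, -10309248, -9613728, -8918208, -7566912, 0, 0, 0, 0, 0, 0, 0, 0, 0, 0],
   [-6028992, -7474464, -8572608, -9082368, -9110016, -8655552, -7940160, 0, 0, 0, 0, 0, 0, 0, 0, 0, 0, 0],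
   [-5177088, -6622560, -7373376, -8124192, -7910784, -7697376, 0, 0, 0, 0, 0, 0, 0, 0, 0, 0, 0, 0],
   [-4297536, -5235840, -6174144, -6924960, -6711552, 0, 0, 0, 0, 0, 0, 0, 0, 0, 0, 0, 0, 0],
   [-2910816, -3661632, -4412448, -5163264, 0, 0, 0, 0, 0, 0, 0, 0, 0, 0, 0, 0, 0, 0],
   [-1093824, -1872288, -2650752, 0, 0, 0, 0, 0, 0, 0, 0, 0, 0, 0, 0, 0, 0, 0],
   [749952, -55296, 0, 0, 0, 0, 0, 0, 0, 0, 0, 0, 0, 0, 0, 0, 0, 0],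
   [2650752, 0, 0, 0, 0, 0, 0, 0, 0, 0, 0, 0, 0, 0, 0, 0, 0, 0]]

/-- Table lookup. -/
def gN (l : List (List ℕ)) (i j : ℕ) : ℕ := (l.getD i []).getD j 0

/-- Table lookup. -/
def gZ (l : List (List ℤ)) (i j : ℕ) : ℤ := (l.getD i []).getD j 0

/-- Lattice points of the kites. -/
def eQ (c : Fin 19) (u : Fin 5) : Fin 18 × Fin 18 :=
  (Fin.ofNat 18 (gN xsQ c u), Fin.ofNat 18 (gN ysQ c u))

/-- Lattice points of the pentagons. -/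
def eP (c : Fin 27) (u : Fin 7) : Fin 18 × Fin 18 :=
  (Fin.ofNat 18 (gN xsP c u), Fin.ofNat 18 (gN ysP c u))

theorem chk_matQ : ∀ c : Fin 19, gZ matQ c 0 * gZ matQ c 3 - gZ matQ c 1 * gZ matQ c 2 ≠ 0 ∧
    ∀ u : Fin 5, (((eQ c u).1 : ℕ) : ℤ) = gZ matQ c 0 * qx u + gZ matQ c 1 * qy u + gZ matQ c 4 ∧
      (((eQ c u).2 : ℕ) : ℤ) = gZ matQ c 2 * qx u + gZ matQ c 3 * qy u + gZ matQ c 5 := by
  decide +kernel

theorem chk_matP : ∀ c : Fin 27, gZ matP c 0 * gZ matP c 3 - gZ matP c 1 * gZ matP c 2 ≠ 0 ∧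
    ∀ u : Fin 7, (((eP c u).1 : ℕ) : ℤ) = gZ matP c 0 * px u + gZ matP c 1 * py u + gZ matP c 4 ∧
      (((eP c u).2 : ℕ) : ℤ) = gZ matP c 2 * px u + gZ matP c 3 * py u + gZ matP c 5 := by
  decide +kernel

theorem chk_injQ : ∀ (c : Fin 19) (u v : Fin 5), eQ c u = eQ c v → u = v := by decide +kernel

theorem chk_injP : ∀ (c : Fin 27) (u v : Fin 7), eP c u = eP c v → u = v := by decide +kernel

/-- The cells. -/
abbrev Cl : Type := Fin 19 ⊕ Fin 27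

/-- Points of a cell. -/
def UU : Cl → Type
  | .inl _ => Fin 5
  | .inr _ => Fin 7

/-- Cusps of a cell. -/
def KK : Cl → Type
  | .inl _ => Fin 1
  | .inr _ => Fin 2

instance instUU : (c : Cl) → Fintype (UU c)
  | .inl _ => inferInstanceAs (Fintype (Fin 5))
  | .inr _ => inferInstanceAs (Fintype (Fin 7))

instance instKK : (c : Cl) → Fintype (KK c)
  | .inl _ => inferInstanceAs (Fintype (Fin 1))
  | .inr _ => inferInstanceAs (Fintype (Fin 2))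

/-- Lattice points of a cell. -/
def ee : (c : Cl) → UU c → Fin 18 × Fin 18
  | .inl c => eQ c
  | .inr c => eP c

/-- Order of the cells. -/
def rk : Cl → ℕ
  | .inl c => gN rkQ c 0
  | .inr c => gN rkP c 0

/-- Anchor points. -/
def aQ (k : ℕ) (c : Fin 19) : Fin 5 := Fin.ofNat 5 (gN rkQ c k)

/-- Anchor points. -/
def aP (k : ℕ) (c : Fin 27) : Fin 7 := Fin.ofNat 7 (gN rkP c k)

/-- Anchor points. -/
def an (k : ℕ) : (c : Cl) → UU c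
  | .inl c => aQ k c
  | .inr c => aP k c

theorem chk_rk : Function.Injective rk := by decide +kernel

theorem chk_detQ : ∀ c : Fin 19,
    ((((eQ c (aQ 2 c)).1 : ℕ) : ℤ) - ((eQ c (aQ 1 c)).1 : ℕ)) *
      ((((eQ c (aQ 3 c)).2 : ℕ) : ℤ) - ((eQ c (aQ 1 c)).2 : ℕ)) -
    ((((eQ c (aQ 3 c)).1 : ℕ) : ℤ) - ((eQ c (aQ 1 c)).1 : ℕ)) *
      ((((eQ c (aQ 2 c)).2 : ℕ) : ℤ) - ((eQ c (aQ 1 c)).2 : ℕ)) ≠ 0 := by decide +kernel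

theorem chk_detP : ∀ c : Fin 27,
    ((((eP c (aP 2 c)).1 : ℕ) : ℤ) - ((eP c (aP 1 c)).1 : ℕ)) *
      ((((eP c (aP 3 c)).2 : ℕ) : ℤ) - ((eP c (aP 1 c)).2 : ℕ)) -
    ((((eP c (aP 3 c)).1 : ℕ) : ℤ) - ((eP c (aP 1 c)).1 : ℕ)) *
      ((((eP c (aP 2 c)).2 : ℕ) : ℤ) - ((eP c (aP 1 c)).2 : ℕ)) ≠ 0 := by decide +kernel

theorem chk_QQ : ∀ (c c' : Fin 19), gN rkQ c' 0 < gN rkQ c 0 → ∀ (u u' : Fin 5),
    eQ c u = eQ c' u' → u = aQ 1 c ∨ u = aQ 2 c ∨ u = aQ 3 c := by decide +kernel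

theorem chk_QP : ∀ (c : Fin 19) (c' : Fin 27), gN rkP c' 0 < gN rkQ c 0 → ∀ (u : Fin 5)
    (u' : Fin 7), eQ c u = eP c' u' → u = aQ 1 c ∨ u = aQ 2 c ∨ u = aQ 3 c := by decide +kernel

theorem chk_PQ : ∀ (c : Fin 27) (c' : Fin 19), gN rkQ c' 0 < gN rkP c 0 → ∀ (u : Fin 7)
    (u' : Fin 5), eP c u = eQ c' u' → u = aP 1 c ∨ u = aP 2 c ∨ u = aP 3 c := by decide +kernel

theorem chk_PP : ∀ (c c' : Fin 27), gN rkP c' 0 < gN rkP c 0 → ∀ (u u' : Fin 7),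
    eP c u = eP c' u' → u = aP 1 c ∨ u = aP 2 c ∨ u = aP 3 c := by decide +kernel

theorem chk_sQ : ∀ (c : Fin 19) (j : Fin 1), gZ sgQ c 0 ≠ 0 ∧ gZ sgQ c 1 ≠ 0 ∧ gZ sgQ c 2 ≠ 0 ∧
    ∀ u : Fin 5, qs j u = gZ sgQ c 0 * gZ epsT (eQ c u).1 (eQ c u).2 *
      gZ sgQ c 1 ^ ((eQ c u).1 : ℕ) * gZ sgQ c 2 ^ ((eQ c u).2 : ℕ) := by decide +kernel

theorem chk_sP : ∀ (c : Fin 27) (j : Fin 2), gZ sgP c (3 * j) ≠ 0 ∧ gZ sgP c (3 * j + 1) ≠ 0 ∧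
    gZ sgP c (3 * j + 2) ≠ 0 ∧
    ∀ u : Fin 7, ps j u = gZ sgP c (3 * j) * gZ epsT (eP c u).1 (eP c u).2 *
      gZ sgP c (3 * j + 1) ^ ((eP c u).1 : ℕ) * gZ sgP c (3 * j + 2) ^ ((eP c u).2 : ℕ) := by
  decide +kernel

theorem chk_nuQ : ∀ (c : Fin 19) (u : Fin 5), gZ nuT (eQ c u).1 (eQ c u).2 =
    gZ lamQ c 0 * ((eQ c u).1 : ℕ) + gZ lamQ c 1 * ((eQ c u).2 : ℕ) + gZ lamQ c 2 := by
  decide +kernel

theorem chk_nuP : ∀ (c : Fin 27) (u : Fin 7), gZ nuT (eP c u).1 (eP c u).2 =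
    gZ lamP c 0 * ((eP c u).1 : ℕ) + gZ lamP c 1 * ((eP c u).2 : ℕ) + gZ lamP c 2 := by
  decide +kernel

theorem chk_ltQ : ∀ (c : Fin 19) (a b : Fin 18), gZ epsT a b = 0 ∨
    gZ lamQ c 0 * (a : ℕ) + gZ lamQ c 1 * (b : ℕ) + gZ lamQ c 2 < gZ nuT a b ∨
    ∃ u : Fin 5, eQ c u = (a, b) := by decide +kernel

theorem chk_ltP : ∀ (c : Fin 27) (a b : Fin 18), gZ epsT a b = 0 ∨
    gZ lamP c 0 * (a : ℕ) + gZ lamP c 1 * (b : ℕ) + gZ lamP c 2 < gZ nuT a b ∨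
    ∃ u : Fin 7, eP c u = (a, b) := by decide +kernel

theorem chk_deg : ∀ a b : Fin 18, gZ epsT a b ≠ 0 → (a : ℕ) + (b : ℕ) ≤ 17 := by decide +kernel

theorem chk_top : gZ epsT 17 0 ≠ 0 := by decide +kernel

end Pool.Agent.H561Z.Cusp
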