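import Pool.Agent.H561Z.CuspF

/-!
A real plane curve of degree 17 with 73 real cusps.
-/

set_option autoImplicit false

namespace Pool.Agent.H561Z.Cusp

/-- Signs of the local models. -/
def sgn : (c : Cl) → KK c → UU c → ℝ
  | .inl _ => fun j u => (qs j u : ℝ)
  | .inr _ => fun j u => (ps j u : ℝ)

/-- Sign choices. -/
def sc (k : ℕ) : (c : Cl) → KK c → ℝ
  | .inl c => fun _ => (gZ sgQ c k : ℝ)
  | .inr c => fun j => (gZ sgP c (3 * (show Fin 2 from j) + k) : ℝ)

/-- Affine functions of the cells. -/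
def lam (k : ℕ) : Cl → ℝ
  | .inl c => (gZ lamQ c k : ℝ)
  | .inr c => (gZ lamP c k : ℝ)

theorem ee_inj : ∀ c, Function.Injective (ee c)
  | .inl c => fun u v h => chk_injQ c u v h
  | .inr c => fun u v h => chk_injP c u v h

theorem ee_model : ∀ c, Model (fun u => (((ee c u).1 : ℕ) : ℝ)) (fun u => (((ee c u).2 : ℕ) : ℝ))
    (sgn c)
  | .inl c => by
    obtain ⟨h1, h2⟩ := chk_matQ c
    refine Model.transport (aff_eq _ _ _ _ (gZ matQ c 0) (gZ matQ c 1) (gZ matQ c 2) (gZ matQ c 3)
      (gZ matQ c 4) (gZ matQ c 5) (by exact_mod_cast h1) (fun u => ?_) (fun u => ?_)) modelQ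
    · exact_mod_cast (h2 u).1
    · exact_mod_cast (h2 u).2
  | .inr c => by
    obtain ⟨h1, h2⟩ := chk_matP c
    refine Model.transport (aff_eq _ _ _ _ (gZ matP c 0) (gZ matP c 1) (gZ matP c 2) (gZ matP c 3)
      (gZ matP c 4) (gZ matP c 5) (by exact_mod_cast h1) (fun u => ?_) (fun u => ?_)) modelP
    · exact_mod_cast (h2 u).1
    · exact_mod_cast (h2 u).2

theorem good_17_73 : Good 17 73 := by
  have hglue := glue (fun i : Fin 18 × Fin 18 => ((i.1 : ℕ) : ℝ)) (fun i => ((i.2 : ℕ) : ℝ)) ee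
    ee_inj rk chk_rk (an 1) (an 2) (an 3)
    (by
      rintro (c | c)
      · exact_mod_cast chk_detQ c
      · exact_mod_cast chk_detP c)
    (by
      rintro (c | c) (c' | c') u u' h1 h2
      · exact chk_QQ c c' h1 u u' h2
      · exact chk_QP c c' h1 u u' h2
      · exact chk_PQ c c' h1 u u' h2
      · exact chk_PP c c' h1 u u' h2)
  obtain ⟨a, ha, P, hP, hc⟩ := patch (fun i : Fin 18 × Fin 18 => (i.1 : ℕ)) (fun i => (i.2 : ℕ)) ee
    ee_inj sgn ee_model hglue (fun i => (gZ epsT i.1 i.2 : ℝ)) (sc 0) (sc 1) (sc 2)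
    (by
      rintro (c | c) j
      · exact Int.cast_ne_zero.2 (chk_sQ c j).1
      · exact Int.cast_ne_zero.2 (chk_sP c j).1)
    (by
      rintro (c | c) j
      · exact Int.cast_ne_zero.2 (chk_sQ c j).2.1
      · exact Int.cast_ne_zero.2 (chk_sP c j).2.1)
    (by
      rintro (c | c) j
      · exact Int.cast_ne_zero.2 (chk_sQ c j).2.2.1
      · exact Int.cast_ne_zero.2 (chk_sP c j).2.2.1)
    (by
      rintro (c | c) j u
      · have := congrArg (Int.cast : ℤ → ℝ) ((chk_sQ c j).2.2.2 u)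
        push_cast at this
        exact this
      · have := congrArg (Int.cast : ℤ → ℝ) ((chk_sP c j).2.2.2 u)
        push_cast at this
        exact this)
    (fun i => (gZ nuT i.1 i.2 : ℝ)) (lam 0) (lam 1) (lam 2)
    (by
      rintro (c | c) u
      · have := congrArg (Int.cast : ℤ → ℝ) (chk_nuQ c u)
        push_cast at this
        exact this
      · have := congrArg (Int.cast : ℤ → ℝ) (chk_nuP c u)
        push_cast at this
        exact this)
    (by
      rintro (c | c) ⟨a, b⟩
      · rcases chk_ltQ c a b with h | h | h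
        · exact Or.inr (Or.inl (by exact_mod_cast h))
        · refine Or.inr (Or.inr ?_)
          have : ((gZ lamQ c 0 * (a : ℕ) + gZ lamQ c 1 * (b : ℕ) + gZ lamQ c 2 : ℤ) : ℝ) <
            (gZ nuT a b : ℝ) := Int.cast_lt.2 h
          push_cast at this
          exact this
        · exact Or.inl h
      · rcases chk_ltP c a b with h | h | h
        · exact Or.inr (Or.inl (by exact_mod_cast h))
        · refine Or.inr (Or.inr ?_)
          have : ((gZ lamP c 0 * (a : ℕ) + gZ lamP c 1 * (b : ℕ) + gZ lamP c 2 : ℤ) : ℝ) <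
            (gZ nuT a b : ℝ) := Int.cast_lt.2 h
          push_cast at this
          exact this
        · exact Or.inl h)
  have hcard : Fintype.card (Σ c, KK c) = 73 := by
    rw [Fintype.card_sigma, Fintype.sum_sum_type]
    have h1 : ∀ c : Fin 19, Fintype.card (KK (.inl c)) = 1 := fun _ => rfl
    have h2 : ∀ c : Fin 27, Fintype.card (KK (.inr c)) = 2 := fun _ => rfl
    simp [h1, h2]
  rw [← hcard]
  refine good_poly _ _ a 17 (fun i hi => chk_deg i.1 i.2 ?_) (17, 0) rfl rfl ?_ ?_ P hP hc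
  · exact_mod_cast (ha i).1 hi
  · rintro ⟨i, j⟩ h1 h2
    exact Prod.ext (Fin.ext h1) (Fin.ext h2)
  · exact (ha _).2 (by exact_mod_cast chk_top)

end Pool.Agent.H561Z.Cusp
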